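import Mathlib

set_option autoImplicit false

/-! Sets with more sums than differences and more products than ratios -/

namespace Pool.Agent.H312.MsMp

open Finset

/-- primes in `(2 ^ a, 2 ^ l]` -/
def PR (a l : ℕ) : Finset ℕ := (Ioc (2 ^ a) (2 ^ l)).filter Nat.Prime

theorem card_PR (a l : ℕ) : (2 ^ l).primeCounting ≤ (PR a l).card + 2 ^ a := by
  rw [← Nat.primesLE_card_eq_primeCounting]
  have h : Nat.primesLE (2 ^ l) ⊆ PR a l ∪ Ioc 0 (2 ^ a) := by
    intro p hp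
    rw [Nat.mem_primesLE] at hp
    rw [mem_union, PR, mem_filter, mem_Ioc, mem_Ioc]
    have := hp.2.pos
    by_cases h : 2 ^ a < p
    · exact Or.inl ⟨⟨h, hp.1⟩, hp.2⟩
    · exact Or.inr ⟨this, by omega⟩
  refine (card_le_card h).trans ((card_union_le _ _).trans ?_)
  simp

theorem pi_lower (l : ℕ) (hl : 1 ≤ l) : 2 ^ l ≤ l * (2 ^ l).primeCounting + l + 1 := by
  have h := Chebyshev.pi_ge (2 ^ l)
  have hl0 : (0 : ℝ) < l := by exact_mod_cast hl
  have hlog2 : 0 < Real.log 2 := Real.log_pos (by norm_num)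
  have h1 : Real.log ((2 ^ l : ℕ) : ℝ) = l * Real.log 2 := by
    push_cast; rw [Real.log_pow]
  have h2 : Real.log (((2 ^ l : ℕ) : ℝ) + 1) ≤ (l + 1) * Real.log 2 := by
    have : (((2 ^ l : ℕ) : ℝ) + 1) ≤ 2 ^ (l + 1) := by
      push_cast
      have : (1 : ℝ) ≤ 2 ^ l := one_le_pow₀ (by norm_num)
      rw [pow_succ]; linarith
    calc Real.log (((2 ^ l : ℕ) : ℝ) + 1) ≤ Real.log (2 ^ (l + 1)) :=
          Real.log_le_log (by positivity) this
      _ = _ := by rw [Real.log_pow]; push_cast; ring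
  rw [h1, div_le_iff₀ (by positivity)] at h
  have h3 : ((2 ^ l : ℕ) : ℝ) * Real.log 2 ≤
      (l * ((2 ^ l).primeCounting : ℝ) + l + 1) * Real.log 2 := by nlinarith
  have h4 := le_of_mul_le_mul_right h3 hlog2
  exact_mod_cast h4

/-- arithmetic for `many` -/
theorem many_aux (B m q π : ℕ) (hm : 0 < m) (hq : 0 < q) (h1 : (B + 1) * (2 * m + 1) ≤ q)
    (h2 : q * q ≤ 2 * m * π + 2 * m + 1) : B * q ≤ π := by
  have h6 : (B + 1) * (2 * m + 1) * q ≤ q * q := Nat.mul_le_mul_right _ h1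
  have h8 : (B + 1) * (2 * m + 1) * q = 2 * m * (B * q) + (2 * m + B + 1) * q := by ring
  have h9 : (2 * m + B + 1) * 1 ≤ (2 * m + B + 1) * q := Nat.mul_le_mul_left _ hq
  have h5 : 2 * m * (B * q) ≤ 2 * m * π := by omega
  exact Nat.le_of_mul_le_mul_left h5 (by omega)

/-- there are many primes up to `4 ^ m`, compared with `2 ^ m` -/
theorem many (C : ℕ) : ∃ m : ℕ, C ≤ m ∧ C * 2 ^ m ≤ (PR 4 (2 * m)).card := by
  obtain ⟨j, hj⟩ : ∃ j, j = 5 * (C + 17) := ⟨_, rfl⟩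
  obtain ⟨m, hm⟩ : ∃ m, m = 2 * j := ⟨_, rfl⟩
  refine ⟨m, by omega, ?_⟩
  have h2j : j < 2 ^ j := Nat.lt_two_pow_self
  have h1 : (C + 16 + 1) * (2 * m + 1) ≤ 2 ^ m := by
    have h3 : 2 ^ m = 2 ^ j * 2 ^ j := by rw [hm, two_mul, pow_add]
    rw [h3]
    calc (C + 16 + 1) * (2 * m + 1) ≤ (C + 16 + 1) * (5 * 2 ^ j) :=
          Nat.mul_le_mul_left _ (by omega)
      _ = j * 2 ^ j := by rw [hj, ← mul_assoc, mul_comm (C + 16 + 1) 5]
      _ ≤ 2 ^ j * 2 ^ j := Nat.mul_le_mul_right _ h2j.le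
  have h2 := pi_lower (2 * m) (by omega)
  have h3 := card_PR 4 (2 * m)
  have h4 : 2 ^ (2 * m) = 2 ^ m * 2 ^ m := by rw [two_mul, pow_add]
  have hp : 0 < 2 ^ m := by positivity
  obtain ⟨π, hπ⟩ : ∃ π, π = (2 ^ (2 * m)).primeCounting := ⟨_, rfl⟩
  rw [← hπ] at h2 h3
  rw [h4] at h2
  have h5 := many_aux (C + 16) m (2 ^ m) π (by omega) hp h1 h2
  have h7 : (C + 16) * 2 ^ m = C * 2 ^ m + 16 * 2 ^ m := by ring
  have h8 : (2 : ℕ) ^ 4 = 16 := by norm_num
  rw [h8] at h3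
  generalize (2 : ℕ) ^ m = q at *
  generalize C * q = Cq at *
  omega

/-- Conway's set -/
def T : Finset ℤ := {0, 2, 3, 4, 7, 11, 12, 14}

def S : ℕ → Finset ℤ
  | 0 => {0}
  | k + 1 => image₂ (fun t u => t + 29 * u) T (S k)

theorem S_nonneg (k : ℕ) : ∀ s ∈ S k, 0 ≤ s := by
  induction k with
  | zero => intro s hs; simp [S] at hs; omega
  | succ k ih =>
    intro s hs
    rw [S, mem_image₂] at hs
    obtain ⟨t, ht, u, hu, rfl⟩ := hs
    have h1 : 0 ≤ t := by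
      simp only [T, mem_insert, mem_singleton] at ht
      omega
    have := ih u hu
    omega

theorem card_S (k : ℕ) : (S k).card ≤ 8 ^ k := by
  induction k with
  | zero => simp [S]
  | succ k ih =>
    rw [S]
    refine (card_image₂_le _ _ _).trans ?_
    rw [pow_succ, mul_comm]
    exact Nat.mul_le_mul ih (by decide)

def P (k : ℕ) : Finset ℤ := image₂ (· + ·) (S k) (S k)

def D (k : ℕ) : Finset ℤ := image₂ (· - ·) (S k) (S k)

theorem P_nonneg (k : ℕ) : ∀ s ∈ P k, 0 ≤ s := by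
  intro s hs
  rw [P, mem_image₂] at hs
  obtain ⟨t, ht, u, hu, rfl⟩ := hs
  have := S_nonneg k t ht
  have := S_nonneg k u hu
  omega

theorem TT_card : (image₂ (· + ·) T T).card = 26 := by decide

theorem TD_card : (image₂ (· - ·) T T).card = 25 := by decide

theorem TT_bd : ∀ s ∈ image₂ (· + ·) T T, 0 ≤ s ∧ s < 29 := by decide

theorem card_P (k : ℕ) : 26 ^ k ≤ (P k).card := by
  induction k with
  | zero => simp [P, S]
  | succ k ih =>
    have hsub : ((image₂ (· + ·) T T) ×ˢ P k).image (fun p => p.1 + 29 * p.2) ⊆ P (k + 1) := by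
      intro z hz
      rw [mem_image] at hz
      obtain ⟨⟨a, b⟩, hab, rfl⟩ := hz
      rw [mem_product] at hab
      obtain ⟨ha, hb⟩ := hab
      simp only [P, mem_image₂] at ha hb ⊢
      obtain ⟨t, ht, t', ht', rfl⟩ := ha
      obtain ⟨u, hu, u', hu', rfl⟩ := hb
      refine ⟨t + 29 * u, ?_, t' + 29 * u', ?_, by ring⟩
      · rw [S, mem_image₂]; exact ⟨t, ht, u, hu, rfl⟩
      · rw [S, mem_image₂]; exact ⟨t', ht', u', hu', rfl⟩
    have hinj : Set.InjOn (fun p : ℤ × ℤ => p.1 + 29 * p.2)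
        (((image₂ (· + ·) T T) ×ˢ P k : Finset (ℤ × ℤ)) : Set (ℤ × ℤ)) := by
      rintro ⟨a, b⟩ hab ⟨a', b'⟩ hab' h
      rw [mem_coe, mem_product] at hab hab'
      have h1 := TT_bd a hab.1
      have h2 := TT_bd a' hab'.1
      simp only at h
      have : a = a' ∧ b = b' := by omega
      rw [this.1, this.2]
    have h := card_le_card hsub
    rw [card_image_of_injOn hinj, card_product, TT_card] at h
    rw [pow_succ]
    nlinarith

theorem card_D (k : ℕ) : (D k).card ≤ 25 ^ k := by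
  induction k with
  | zero => simp [D, S]
  | succ k ih =>
    have hsub : D (k + 1) ⊆ image₂ (fun a b => a + 29 * b) (image₂ (· - ·) T T) (D k) := by
      intro z hz
      simp only [D, mem_image₂] at hz ⊢
      obtain ⟨a, ha, b, hb, rfl⟩ := hz
      rw [S, mem_image₂] at ha hb
      obtain ⟨t, ht, u, hu, rfl⟩ := ha
      obtain ⟨t', ht', u', hu', rfl⟩ := hb
      exact ⟨t - t', ⟨t, ht, t', ht', rfl⟩, u - u', ⟨u, hu, u', hu', rfl⟩, by ring⟩
    refine (card_le_card hsub).trans ((card_image₂_le _ _ _).trans ?_)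
    rw [TD_card, pow_succ, mul_comm]
    exact Nat.mul_le_mul_right _ ih

/-! The multiplicative part -/

/-- the set `X · 2 ^ S` -/
def W (X : Finset ℕ) (k : ℕ) : Finset ℕ := image₂ (fun (x : ℕ) (s : ℤ) => x * 2 ^ s.toNat) X (S k)

theorem card_W (X : Finset ℕ) (k : ℕ) : (W X k).card ≤ X.card * 8 ^ k :=
  (card_image₂_le _ _ _).trans (Nat.mul_le_mul_left _ (card_S k))

theorem odd_pow {a b i j : ℕ} (ha : a % 2 = 1) (hb : b % 2 = 1) (h : a * 2 ^ i = b * 2 ^ j) :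
    i = j ∧ a = b := by
  have key : ∀ (a b i j : ℕ), a % 2 = 1 → b % 2 = 1 → a * 2 ^ i = b * 2 ^ j → i ≤ j → i = j := by
    intro a b i j ha hb h hij
    by_contra hne
    obtain ⟨d, hd⟩ : ∃ d, j = i + (d + 1) := ⟨j - i - 1, by omega⟩
    subst hd
    have h1 : a * 2 ^ i = (b * 2 ^ d * 2) * 2 ^ i := by rw [h]; ring
    have h2 := Nat.eq_of_mul_eq_mul_right (by positivity) h1
    omega
  have hij : i = j := by
    rcases le_total i j with h1 | h1
    · exact key a b i j ha hb h h1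
    · exact (key b a j i hb ha h.symm h1).symm
  subst hij
  exact ⟨rfl, Nat.eq_of_mul_eq_mul_right (by positivity) h⟩

theorem prime_pair {x x' y y' : ℕ} (hx : x.Prime) (hy : y.Prime)
    (hy' : y'.Prime) (h : x * x' = y * y') : (x = y ∧ x' = y') ∨ (x = y' ∧ x' = y) := by
  have h1 : x ∣ y * y' := h ▸ dvd_mul_right x x'
  rcases (Nat.Prime.dvd_mul hx).1 h1 with h2 | h2
  · have h3 := (Nat.prime_dvd_prime_iff_eq hx hy).1 h2
    subst h3
    exact Or.inl ⟨rfl, Nat.eq_of_mul_eq_mul_left hx.pos h⟩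
  · have h3 := (Nat.prime_dvd_prime_iff_eq hx hy').1 h2
    subst h3
    right
    refine ⟨rfl, Nat.eq_of_mul_eq_mul_left hx.pos ?_⟩
    rw [h]; ring

theorem card_WW (X : Finset ℕ) (k : ℕ) (hX : ∀ x ∈ X, x.Prime ∧ x % 2 = 1) :
    X.card * X.card * 26 ^ k ≤ 2 * (image₂ (· * ·) (W X k) (W X k)).card := by
  set f : (ℕ × ℕ) × ℤ → ℕ := fun q => q.1.1 * q.1.2 * 2 ^ q.2.toNat with hf
  have hsub : ((X ×ˢ X) ×ˢ P k).image f ⊆ image₂ (· * ·) (W X k) (W X k) := by
    intro z hz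
    rw [mem_image] at hz
    obtain ⟨⟨⟨x, x'⟩, σ⟩, h, rfl⟩ := hz
    rw [mem_product, mem_product] at h
    obtain ⟨⟨hx, hx'⟩, hσ⟩ := h
    simp only [P, mem_image₂] at hσ
    obtain ⟨s, hs, s', hs', rfl⟩ := hσ
    rw [mem_image₂]
    refine ⟨x * 2 ^ s.toNat, ?_, x' * 2 ^ s'.toNat, ?_, ?_⟩
    · rw [W, mem_image₂]; exact ⟨x, hx, s, hs, rfl⟩
    · rw [W, mem_image₂]; exact ⟨x', hx', s', hs', rfl⟩
    · have h1 := S_nonneg k s hs
      have h2 := S_nonneg k s' hs'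
      simp only [hf]
      rw [Int.toNat_add h1 h2, pow_add]
      ring
  have h1 := Finset.card_le_mul_card_image (f := f) ((X ×ˢ X) ×ˢ P k) 2 (by
    intro a ha
    rw [mem_image] at ha
    obtain ⟨⟨⟨x, x'⟩, σ⟩, h, rfl⟩ := ha
    rw [mem_product, mem_product] at h
    obtain ⟨⟨hx, hx'⟩, hσ⟩ := h
    have hs2 : (((X ×ˢ X) ×ˢ P k).filter fun q => f q = f ((x, x'), σ)) ⊆
        {((x, x'), σ), ((x', x), σ)} := by
      rintro ⟨⟨y, y'⟩, τ⟩ hq
      rw [mem_filter, mem_product, mem_product] at hq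
      obtain ⟨⟨⟨hy, hy'⟩, hτ⟩, he⟩ := hq
      simp only [hf] at he
      simp only at hx hx' hσ hy hy' hτ
      have o1 := hX x hx
      have o2 := hX x' hx'
      have o3 := hX y hy
      have o4 := hX y' hy'
      obtain ⟨e1, e2⟩ := odd_pow (by rw [Nat.mul_mod, o3.2, o4.2])
        (by rw [Nat.mul_mod, o1.2, o2.2]) he
      have hτ' := P_nonneg k τ hτ
      have hσ' := P_nonneg k σ hσ
      have e3 : τ = σ := by omega
      subst e3
      rw [mem_insert, mem_singleton]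
      rcases prime_pair o3.1 o1.1 o2.1 e2 with ⟨rfl, rfl⟩ | ⟨rfl, rfl⟩
      · left; rfl
      · right; rfl
    exact (card_le_card hs2).trans card_le_two)
  rw [card_product, card_product] at h1
  have h2 := card_le_card hsub
  have h3 := Nat.mul_le_mul_left (X.card * X.card) (card_P k)
  omega

theorem card_WdW (X : Finset ℕ) (k : ℕ) :
    (image₂ (fun a b : ℕ => (a : ℚ) / b) (W X k) (W X k)).card ≤ X.card * X.card * 25 ^ k := by
  have hsub : image₂ (fun a b : ℕ => (a : ℚ) / b) (W X k) (W X k) ⊆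
      ((X ×ˢ X) ×ˢ D k).image (fun q => ((q.1.1 : ℚ) / q.1.2) * (2 : ℚ) ^ q.2) := by
    intro z hz
    rw [mem_image₂] at hz
    obtain ⟨a, ha, b, hb, rfl⟩ := hz
    rw [W, mem_image₂] at ha hb
    obtain ⟨x, hx, s, hs, rfl⟩ := ha
    obtain ⟨x', hx', s', hs', rfl⟩ := hb
    rw [mem_image]
    refine ⟨((x, x'), s - s'), ?_, ?_⟩
    · rw [mem_product, mem_product]
      refine ⟨⟨hx, hx'⟩, ?_⟩
      rw [D, mem_image₂]
      exact ⟨s, hs, s', hs', rfl⟩
    · have h1 : ((s.toNat : ℕ) : ℤ) = s := Int.toNat_of_nonneg (S_nonneg k s hs)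
      have h2 : ((s'.toNat : ℕ) : ℤ) = s' := Int.toNat_of_nonneg (S_nonneg k s' hs')
      have h3 : (2 : ℚ) ^ (s - s') = 2 ^ s.toNat / 2 ^ s'.toNat := by
        rw [zpow_sub₀ (by norm_num), ← h1, ← h2, zpow_natCast, zpow_natCast]
        simp [h1, h2]
      simp only
      rw [h3]
      push_cast
      rw [div_mul_div_comm]
  refine (card_le_card hsub).trans (card_image_le.trans ?_)
  rw [card_product, card_product]
  exact Nat.mul_le_mul_left _ (card_D k)

end Pool.Agent.H312.MsMp
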