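import Pool.Agent.H312.MsMp

set_option autoImplicit false

/-! The additive frame -/

namespace Pool.Agent.H312.MsMp

open Finset

/-- the frame: fringes, short intervals and multiples of `s`, shifted by one; `N = s * s` -/
def F (s : ℕ) : Finset ℕ :=
  (({0, 2, 3, 7, 8, 9, 10} : Finset ℕ) ∪ Icc 11 (s + 10) ∪ (Icc 1 (s - 1)).image (fun j => j * s) ∪
    Icc (s * s - s - 10) (s * s - 11) ∪
    ({0, 1, 2, 5, 7, 8, 9, 10} : Finset ℕ).image (fun u => s * s - u)).image (fun a => a + 1)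

theorem card_F (s : ℕ) (hs : 20 ≤ s) : (F s).card ≤ 4 * s := by
  have hN : 20 * s ≤ s * s := Nat.mul_le_mul_right _ hs
  refine card_image_le.trans ?_
  have h1 := card_union_le (({0, 2, 3, 7, 8, 9, 10} : Finset ℕ) ∪ Icc 11 (s + 10) ∪
    (Icc 1 (s - 1)).image (fun j => j * s) ∪ Icc (s * s - s - 10) (s * s - 11))
    (({0, 1, 2, 5, 7, 8, 9, 10} : Finset ℕ).image (fun u => s * s - u))
  have h2 := card_union_le (({0, 2, 3, 7, 8, 9, 10} : Finset ℕ) ∪ Icc 11 (s + 10) ∪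
    (Icc 1 (s - 1)).image (fun j => j * s)) (Icc (s * s - s - 10) (s * s - 11))
  have h3 := card_union_le (({0, 2, 3, 7, 8, 9, 10} : Finset ℕ) ∪ Icc 11 (s + 10))
    ((Icc 1 (s - 1)).image (fun j => j * s))
  have h4 := card_union_le ({0, 2, 3, 7, 8, 9, 10} : Finset ℕ) (Icc 11 (s + 10))
  have h5 : (({0, 1, 2, 5, 7, 8, 9, 10} : Finset ℕ).image (fun u => s * s - u)).card ≤ 8 :=
    card_image_le
  have h6 : ((Icc 1 (s - 1)).image (fun j => j * s)).card ≤ s - 1 :=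
    card_image_le.trans (by rw [Nat.card_Icc]; omega)
  have h7 : ({0, 2, 3, 7, 8, 9, 10} : Finset ℕ).card = 7 := by decide
  rw [Nat.card_Icc] at h2 h4
  generalize s * s = N at *
  omega

theorem F_low (s a : ℕ) (h : a ∈ ({0, 2, 3, 7, 8, 9, 10} : Finset ℕ)) : a + 1 ∈ F s := by
  refine mem_image_of_mem _ ?_
  simp only [mem_union]
  tauto

theorem F_int (s a : ℕ) (h1 : 11 ≤ a) (h2 : a ≤ s + 10) : a + 1 ∈ F s := by
  refine mem_image_of_mem _ ?_
  simp only [mem_union, mem_Icc]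
  tauto

theorem F_mul (s j : ℕ) (h1 : 1 ≤ j) (h2 : j + 1 ≤ s) : j * s + 1 ∈ F s := by
  refine mem_image_of_mem (fun a => a + 1) ?_
  have : j * s ∈ (Icc 1 (s - 1)).image (fun j => j * s) :=
    mem_image_of_mem (fun j => j * s) (mem_Icc.2 ⟨h1, by omega⟩)
  simp only [mem_union]
  tauto

theorem F_int' (s a : ℕ) (h0 : s + 10 ≤ s * s) (h1 : 11 ≤ a) (h2 : a ≤ s + 10) :
    s * s - a + 1 ∈ F s := by
  refine mem_image_of_mem (fun a => a + 1) ?_
  have : s * s - a ∈ Icc (s * s - s - 10) (s * s - 11) := by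
    rw [mem_Icc]; generalize s * s = N at *; omega
  simp only [mem_union]
  tauto

theorem F_top (s u : ℕ) (h : u ∈ ({0, 1, 2, 5, 7, 8, 9, 10} : Finset ℕ)) :
    s * s - u + 1 ∈ F s := by
  refine mem_image_of_mem (fun a => a + 1) ?_
  have : s * s - u ∈ ({0, 1, 2, 5, 7, 8, 9, 10} : Finset ℕ).image (fun u => s * s - u) :=
    mem_image_of_mem (fun u => s * s - u) h
  exact mem_union_right _ this

theorem F_mem (s a : ℕ) (hs : 20 ≤ s) (h : a ∈ F s) :
    a = 1 ∨ a = 3 ∨ a = 4 ∨ a = 8 ∨ a = 9 ∨ a = 10 ∨ a = 11 ∨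
    (12 ≤ a ∧ a + 10 ≤ s * s) ∨
    a = s * s + 1 ∨ a = s * s ∨ a + 1 = s * s ∨ a + 4 = s * s ∨ a + 6 = s * s ∨ a + 7 = s * s ∨
    a + 8 = s * s ∨ a + 9 = s * s := by
  have hN : 20 * s ≤ s * s := Nat.mul_le_mul_right _ hs
  rw [F, mem_image] at h
  obtain ⟨b, hb, rfl⟩ := h
  simp only [mem_union, mem_Icc, mem_image, mem_insert, mem_singleton] at hb
  rcases hb with (((hb | hb) | ⟨j, hj, rfl⟩) | hb) | ⟨u, hu, rfl⟩
  · omega
  · generalize s * s = N at *
    omega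
  · have h1 : 1 * s ≤ j * s := Nat.mul_le_mul_right _ hj.1
    have h2 : (j + 1) * s ≤ s * s := Nat.mul_le_mul_right _ (by omega)
    have h3 : (j + 1) * s = j * s + s := by ring
    generalize s * s = N at *
    generalize j * s = M at *
    omega
  · generalize s * s = N at *
    omega
  · generalize s * s = N at *
    rcases hu with rfl | rfl | rfl | rfl | rfl | rfl | rfl | rfl <;> omega

/-- low sums -/
theorem low_sum (n : ℕ) (h : n ≤ 20) (h1 : n ≠ 1) : ∃ a ∈ ({0, 2, 3, 7, 8, 9, 10} : Finset ℕ),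
    ∃ b ∈ ({0, 2, 3, 7, 8, 9, 10} : Finset ℕ), a + b = n := by
  interval_cases n <;> first | omega | decide

theorem top_sum (n : ℕ) (h : n ≤ 20) : ∃ a ∈ ({0, 1, 2, 5, 7, 8, 9, 10} : Finset ℕ),
    ∃ b ∈ ({0, 1, 2, 5, 7, 8, 9, 10} : Finset ℕ), a + b = n := by
  interval_cases n <;> decide

theorem cover (s : ℕ) (hs : 20 ≤ s) (n : ℕ) (h2 : 2 ≤ n) (h3 : n ≠ 3) (hn : n ≤ 2 * (s * s) + 2) :
    ∃ a ∈ F s, ∃ b ∈ F s, a + b = n := by
  have hN : 20 * s ≤ s * s := Nat.mul_le_mul_right _ hs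
  -- division of `m ≤ N`
  have key : ∀ m, s + 11 ≤ m → m ≤ s * s → ∃ j r, 1 ≤ j ∧ j + 1 ≤ s ∧ 11 ≤ r ∧ r ≤ s + 10 ∧
      j * s + r = m := by
    intro m hm1 hm2
    refine ⟨(m - 11) / s, 11 + (m - 11) % s, ?_, ?_, by omega, ?_, ?_⟩
    · exact (Nat.one_le_div_iff (by omega)).2 (by omega)
    · have : (m - 11) / s < s := Nat.div_lt_of_lt_mul (by omega)
      omega
    · have := Nat.mod_lt (m - 11) (show 0 < s by omega)
      omega
    · have := Nat.div_add_mod (m - 11) s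
      have h4 : s * ((m - 11) / s) = (m - 11) / s * s := mul_comm _ _
      rw [h4] at this
      omega
  rcases Nat.lt_or_ge n (s * s + 2) with hlt | hge
  · -- m = n - 2 ≤ N
    obtain ⟨m, rfl⟩ : ∃ m, n = m + 2 := ⟨n - 2, by omega⟩
    rcases Nat.lt_or_ge m 21 with h4 | h4
    · obtain ⟨a, ha, b, hb, hab⟩ := low_sum m (by omega) (by omega)
      exact ⟨a + 1, F_low s a ha, b + 1, F_low s b hb, by omega⟩
    rcases Nat.lt_or_ge m (s + 11) with h5 | h5
    · exact ⟨0 + 1, F_low s 0 (by simp), m + 1, F_int s m (by omega) (by omega), by omega⟩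
    · obtain ⟨j, r, hj1, hj2, hr1, hr2, hm⟩ := key m h5 (by omega)
      exact ⟨j * s + 1, F_mul s j hj1 hj2, r + 1, F_int s r hr1 hr2, by omega⟩
  · -- m = 2 N + 2 - n ≤ N
    obtain ⟨m, hm⟩ : ∃ m, n + m = 2 * (s * s) + 2 := ⟨2 * (s * s) + 2 - n, by omega⟩
    rcases Nat.lt_or_ge m 21 with h4 | h4
    · obtain ⟨a, ha, b, hb, hab⟩ := top_sum m (by omega)
      refine ⟨s * s - a + 1, F_top s a ha, s * s - b + 1, F_top s b hb, ?_⟩
      generalize s * s = N at *
      omega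
    rcases Nat.lt_or_ge m (s + 11) with h5 | h5
    · refine ⟨s * s - 0 + 1, F_top s 0 (by simp), s * s - m + 1,
        F_int' s m (by omega) (by omega) (by omega), ?_⟩
      generalize s * s = N at *
      omega
    · obtain ⟨j, r, hj1, hj2, hr1, hr2, hjr⟩ := key m h5 (by omega)
      refine ⟨(s - j) * s + 1, F_mul s (s - j) (by omega) (by omega), s * s - r + 1,
        F_int' s r (by omega) hr1 hr2, ?_⟩
      have h6 : (s - j) * s + j * s = s * s := by
        rw [← Nat.add_mul]; congr 1; omega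
      generalize s * s = N at *
      generalize j * s = M at *
      generalize (s - j) * s = M' at *
      omega

theorem final_arith (x f G D P2 A1 Q2 w : ℕ) (s : ℕ) (hG : 1 ≤ G) (hs : 1 ≤ s)
    (hx : (8 * G + 8) * s ≤ x) (hf : f ≤ 4 * s) (hw : w ≤ x * G)
    (hP : 2 * D + 2 ≤ P2) (hPP : x * x * P2 ≤ 2 * Q2)
    (hA : A1 ≤ x * x * D + f * (f + w) + (f + w) * f) : A1 < Q2 := by
  have h1 : x * x * (2 * D + 2) ≤ 2 * Q2 := (Nat.mul_le_mul_left _ hP).trans hPP
  have h2 : f * (f + w) ≤ 4 * s * (4 * s + x * G) := Nat.mul_le_mul hf (Nat.add_le_add hf hw)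
  have h3 : (8 * G + 8) * s * x ≤ x * x := Nat.mul_le_mul_right _ hx
  have h4 : (8 * G + 8) * s * ((8 * G + 8) * s) ≤ (8 * G + 8) * s * x :=
    Nat.mul_le_mul_left _ hx
  have h5 : 1 ≤ G * s := Nat.one_le_iff_ne_zero.2 (by positivity)
  have h6 : 2 * (4 * s * (4 * s + x * G)) < x * x := by
    have h7 : 2 * (4 * s * (4 * s + x * G)) = 32 * (s * s) + 8 * G * s * x := by ring
    have h8 : (8 * G + 8) * s * x = 8 * G * s * x + 8 * s * x := by ring
    have h9 : 8 * s * ((8 * G + 8) * s) ≤ 8 * s * x := Nat.mul_le_mul_left _ hx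
    have h10 : 8 * s * ((8 * G + 8) * s) = 64 * (s * s) + 64 * G * (s * s) := by ring
    have h11 : 1 ≤ s * s := Nat.one_le_iff_ne_zero.2 (by positivity)
    have h12 : 0 ≤ 64 * G * (s * s) := Nat.zero_le _
    omega
  have h7 : (f + w) * f = f * (f + w) := mul_comm _ _
  have h8 : x * x * (2 * D + 2) = 2 * (x * x * D) + 2 * (x * x) := by ring
  omega

theorem split (f : ℕ → ℕ → ℚ) (U V : Finset ℕ) : image₂ f (U ∪ V) (U ∪ V) ⊆
    image₂ f V V ∪ image₂ f U (U ∪ V) ∪ image₂ f (U ∪ V) U := by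
  intro z hz
  rw [mem_image₂] at hz
  obtain ⟨a, ha, b, hb, rfl⟩ := hz
  rw [mem_union, mem_union]
  rcases mem_union.1 ha with ha' | ha'
  · left; right; exact mem_image₂_of_mem ha' hb
  · rcases mem_union.1 hb with hb' | hb'
    · right; exact mem_image₂_of_mem ha hb'
    · left; left; exact mem_image₂_of_mem ha' hb'

/-- The main theorem. -/
theorem main : ∃ A : Finset ℕ, A.Nonempty ∧ (∀ a ∈ A, 1 ≤ a) ∧
    (image₂ (fun a b : ℕ => (a : ℤ) - b) A A).card < (image₂ (fun a b : ℕ => a + b) A A).card ∧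
    (image₂ (fun a b : ℕ => (a : ℚ) / b) A A).card <
      (image₂ (fun a b : ℕ => a * b) A A).card := by
  obtain ⟨k, h26⟩ : ∃ k : ℕ, 2 * 25 ^ k + 2 ≤ 26 ^ k := ⟨18, by norm_num⟩
  -- bound for exponents
  obtain ⟨E, hE⟩ : ∃ E : ℕ, ∀ s ∈ S k, s.toNat ≤ E := by
    refine ⟨(S k).sup Int.toNat, fun s hs => ?_⟩
    exact le_sup (f := Int.toNat) hs
  obtain ⟨G, hG⟩ : ∃ G, G = 8 ^ k := ⟨_, rfl⟩
  have hG1 : 1 ≤ G := hG ▸ Nat.one_le_pow _ _ (by norm_num)
  obtain ⟨m, hm1, hm2⟩ := many ((8 * G + 8) * 2 ^ (E + 5))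
  obtain ⟨X, hX⟩ : ∃ X, X = PR 4 (2 * m) := ⟨_, rfl⟩
  rw [← hX] at hm2
  obtain ⟨s, hs⟩ : ∃ s, s = 2 ^ (E + 5 + m) := ⟨_, rfl⟩
  have hs20 : 20 ≤ s := by
    have h1 : 2 ^ 5 ≤ s := hs ▸ Nat.pow_le_pow_right (by norm_num) (by omega)
    omega
  have hN : 20 * s ≤ s * s := Nat.mul_le_mul_right _ hs20
  have hXp : ∀ x ∈ X, x.Prime ∧ x % 2 = 1 := by
    intro x hx
    rw [hX, PR, mem_filter, mem_Ioc] at hx
    refine ⟨hx.2, ?_⟩
    rcases hx.2.eq_two_or_odd with h | h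
    · have := hx.1.1; rw [h] at this; norm_num at this
    · exact h
  have hW : ∀ a ∈ W X k, 12 ≤ a ∧ a + 10 ≤ s * s := by
    intro a ha
    rw [W, mem_image₂] at ha
    obtain ⟨x, hx, σ, hσ, rfl⟩ := ha
    rw [hX, PR, mem_filter, mem_Ioc] at hx
    have h1 : 1 ≤ 2 ^ σ.toNat := Nat.one_le_two_pow
    have h2 : 2 ^ σ.toNat ≤ 2 ^ E := Nat.pow_le_pow_right (by norm_num) (hE σ hσ)
    have h3 : 17 * 1 ≤ x * 2 ^ σ.toNat := Nat.mul_le_mul (by omega) h1
    have h4 : x * 2 ^ σ.toNat ≤ 2 ^ (2 * m) * 2 ^ E := Nat.mul_le_mul hx.1.2 h2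
    have h5 : 2 ^ (2 * m) * 2 ^ E * 2 ≤ s * s := by
      rw [hs, ← pow_add, ← pow_add, ← pow_succ]
      exact Nat.pow_le_pow_right (by norm_num) (by omega)
    have h6 : 17 ≤ 2 ^ (2 * m) * 2 ^ E := by omega
    exact ⟨by omega, by omega⟩
  have hxs : (8 * G + 8) * s ≤ X.card := by
    refine le_trans (le_of_eq ?_) hm2
    rw [hs, pow_add]; ring
  refine ⟨F s ∪ W X k, ⟨0 + 1, mem_union_left _ (F_low s 0 (by simp))⟩, ?_, ?_, ?_⟩
  · intro a ha
    rw [mem_union] at ha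
    rcases ha with ha | ha
    · have := F_mem s a hs20 ha
      generalize s * s = N at *
      omega
    · exact le_trans (by norm_num) (hW a ha).1
  · -- MSTD
    have hA : ∀ a ∈ F s ∪ W X k,
        a = 1 ∨ a = 3 ∨ a = 4 ∨ a = 8 ∨ a = 9 ∨ a = 10 ∨ a = 11 ∨
        (12 ≤ a ∧ a + 10 ≤ s * s) ∨
        a = s * s + 1 ∨ a = s * s ∨ a + 1 = s * s ∨ a + 4 = s * s ∨ a + 6 = s * s ∨
        a + 7 = s * s ∨ a + 8 = s * s ∨ a + 9 = s * s := by
      intro a ha
      rw [mem_union] at ha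
      rcases ha with ha | ha
      · exact F_mem s a hs20 ha
      · have := hW a ha
        tauto
    have hsub : (Icc 2 (2 * (s * s) + 2)).erase 3 ⊆
        image₂ (fun a b : ℕ => a + b) (F s ∪ W X k) (F s ∪ W X k) := by
      intro n hn
      rw [mem_erase, mem_Icc] at hn
      obtain ⟨a, ha, b, hb, hab⟩ := cover s hs20 n hn.2.1 hn.1 hn.2.2
      rw [mem_image₂]
      exact ⟨a, mem_union_left _ ha, b, mem_union_left _ hb, hab⟩
    have hc1 : ((Icc 2 (2 * (s * s) + 2)).erase 3).card = 2 * (s * s) := by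
      rw [card_erase_of_mem (mem_Icc.2 ⟨by norm_num, by omega⟩), Nat.card_Icc]
      omega
    have hsub2 : image₂ (fun a b : ℕ => (a : ℤ) - b) (F s ∪ W X k) (F s ∪ W X k) ⊆
        ((Icc (-((s * s : ℕ) : ℤ)) ((s * s : ℕ) : ℤ)).erase (((s * s : ℕ) : ℤ) - 6)).erase
          (-(((s * s : ℕ) : ℤ) - 6)) := by
      intro z hz
      rw [mem_image₂] at hz
      obtain ⟨a, ha, b, hb, rfl⟩ := hz
      have h1 := hA a ha
      have h2 := hA b hb
      rw [mem_erase, mem_erase, mem_Icc]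
      generalize s * s = N at *
      refine ⟨?_, ?_, ?_, ?_⟩ <;> omega
    have hc2 : (((Icc (-((s * s : ℕ) : ℤ)) ((s * s : ℕ) : ℤ)).erase
        (((s * s : ℕ) : ℤ) - 6)).erase (-(((s * s : ℕ) : ℤ) - 6))).card = 2 * (s * s) - 1 := by
      rw [card_erase_of_mem, card_erase_of_mem, Int.card_Icc]
      · generalize s * s = N at *
        omega
      · rw [mem_Icc]
        generalize s * s = N at *
        omega
      · rw [mem_erase, mem_Icc]
        generalize s * s = N at *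
        omega
    have h1 := card_le_card hsub
    have h2 := card_le_card hsub2
    rw [hc1] at h1
    rw [hc2] at h2
    generalize s * s = N at *
    omega
  · -- MPTR
    refine final_arith X.card (F s).card G (25 ^ k) (26 ^ k) _ _ (W X k).card s hG1 (by omega)
      hxs (card_F s hs20) (hG ▸ card_W X k) h26 (?_ : _ ≤ _) ?_
    · refine (card_WW X k hXp).trans (Nat.mul_le_mul_left _ (card_le_card ?_))
      exact image₂_subset subset_union_right subset_union_right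
    · have hsub : image₂ (fun a b : ℕ => (a : ℚ) / b) (F s ∪ W X k) (F s ∪ W X k) ⊆
          image₂ (fun a b : ℕ => (a : ℚ) / b) (W X k) (W X k) ∪
          image₂ (fun a b : ℕ => (a : ℚ) / b) (F s) (F s ∪ W X k) ∪
          image₂ (fun a b : ℕ => (a : ℚ) / b) (F s ∪ W X k) (F s) := by
        exact split _ _ _
      have h1 := card_le_card hsub
      have h2 := card_union_le (image₂ (fun a b : ℕ => (a : ℚ) / b) (W X k) (W X k) ∪
          image₂ (fun a b : ℕ => (a : ℚ) / b) (F s) (F s ∪ W X k))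
          (image₂ (fun a b : ℕ => (a : ℚ) / b) (F s ∪ W X k) (F s))
      have h3 := card_union_le (image₂ (fun a b : ℕ => (a : ℚ) / b) (W X k) (W X k))
          (image₂ (fun a b : ℕ => (a : ℚ) / b) (F s) (F s ∪ W X k))
      have h4 := card_WdW X k
      have h5 := card_union_le (F s) (W X k)
      have h6 : (image₂ (fun a b : ℕ => (a : ℚ) / b) (F s) (F s ∪ W X k)).card ≤
          (F s).card * ((F s).card + (W X k).card) :=
        (card_image₂_le _ _ _).trans (Nat.mul_le_mul_left _ h5)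
      have h7 : (image₂ (fun a b : ℕ => (a : ℚ) / b) (F s ∪ W X k) (F s)).card ≤
          ((F s).card + (W X k).card) * (F s).card :=
        (card_image₂_le _ _ _).trans (Nat.mul_le_mul_right _ h5)
      omega

end Pool.Agent.H312.MsMp
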