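import Mathlib

set_option autoImplicit false

/-! Quadruples `a b + c d = N` and their parity patterns -/

namespace Pool.Agent.H312.Rk

open Finset

abbrev R4 := ℕ × ℕ × ℕ × ℕ

/-- all positive quadruples with `a b + c d = N` -/
def Q (N : ℕ) : Finset R4 :=
  ((range (N + 1)) ×ˢ (range (N + 1)) ×ˢ (range (N + 1)) ×ˢ (range (N + 1))).filter
    (fun x => 0 < x.1 ∧ 0 < x.2.1 ∧ 0 < x.2.2.1 ∧ 0 < x.2.2.2 ∧
      x.1 * x.2.1 + x.2.2.1 * x.2.2.2 = N)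

theorem mem_Q {N a b c d : ℕ} :
    (a, b, c, d) ∈ Q N ↔ 0 < a ∧ 0 < b ∧ 0 < c ∧ 0 < d ∧ a * b + c * d = N := by
  rw [Q, mem_filter, mem_product, mem_product, mem_product, mem_range, mem_range, mem_range,
    mem_range]
  simp only
  constructor
  · rintro ⟨_, h⟩
    exact h
  · rintro ⟨ha, hb, hc, hd, h⟩
    refine ⟨⟨?_, ?_, ?_, ?_⟩, ha, hb, hc, hd, h⟩ <;> nlinarith

open scoped Classical in
/-- number of quadruples with a property -/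
noncomputable def cnt (N : ℕ) (p : ℕ → ℕ → ℕ → ℕ → Prop) : ℕ :=
  ((Q N).filter (fun x => p x.1 x.2.1 x.2.2.1 x.2.2.2)).card

open scoped Classical in
theorem cnt_sum (N : ℕ) (p : ℕ → ℕ → ℕ → ℕ → Prop) :
    cnt N p = ∑ x ∈ Q N, if p x.1 x.2.1 x.2.2.1 x.2.2.2 then 1 else 0 := by
  rw [cnt, card_filter]

open scoped Classical in
/-- bijections between two sets of quadruples -/
theorem cnt_bij (N N' : ℕ) (p q : ℕ → ℕ → ℕ → ℕ → Prop) (f g : R4 → R4)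
    (hf : ∀ a b c d, (a, b, c, d) ∈ Q N → p a b c d →
      f (a, b, c, d) ∈ Q N' ∧ q (f (a, b, c, d)).1 (f (a, b, c, d)).2.1 (f (a, b, c, d)).2.2.1
        (f (a, b, c, d)).2.2.2 ∧ g (f (a, b, c, d)) = (a, b, c, d))
    (hg : ∀ a b c d, (a, b, c, d) ∈ Q N' → q a b c d →
      g (a, b, c, d) ∈ Q N ∧ p (g (a, b, c, d)).1 (g (a, b, c, d)).2.1 (g (a, b, c, d)).2.2.1
        (g (a, b, c, d)).2.2.2 ∧ f (g (a, b, c, d)) = (a, b, c, d)) :
    cnt N p = cnt N' q := by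
  refine card_nbij' f g ?_ ?_ ?_ ?_
  · rintro ⟨a, b, c, d⟩ h
    rw [coe_filter, Set.mem_ofPred_eq] at h ⊢
    exact ⟨(hf a b c d h.1 h.2).1, (hf a b c d h.1 h.2).2.1⟩
  · rintro ⟨a, b, c, d⟩ h
    rw [coe_filter, Set.mem_ofPred_eq] at h ⊢
    exact ⟨(hg a b c d h.1 h.2).1, (hg a b c d h.1 h.2).2.1⟩
  · rintro ⟨a, b, c, d⟩ h
    rw [coe_filter, Set.mem_ofPred_eq] at h
    exact (hf a b c d h.1 h.2).2.2
  · rintro ⟨a, b, c, d⟩ h
    rw [coe_filter, Set.mem_ofPred_eq] at h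
    exact (hg a b c d h.1 h.2).2.2

/-- parity pattern -/
def pat (α β γ δ a b c d : ℕ) : Prop := a % 2 = α ∧ b % 2 = β ∧ c % 2 = γ ∧ d % 2 = δ

/-- quadruples with a pattern and `c < a` -/
noncomputable def l (N α β γ δ : ℕ) : ℕ := cnt N (fun a b c d => c < a ∧ pat α β γ δ a b c d)

/-- quadruples with a pattern -/
noncomputable def full (N α β γ δ : ℕ) : ℕ := cnt N (pat α β γ δ)

/-- quadruples with a pattern and `a = c` -/
noncomputable def eqs (N α β γ δ : ℕ) : ℕ := cnt N (fun a b c d => a = c ∧ pat α β γ δ a b c d)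

/-- conjugation -/
def tau (x : R4) : R4 := (x.2.1 + x.2.2.2, x.2.2.1, x.2.1, x.1 - x.2.2.1)

theorem tau_mem {N a b c d : ℕ} (h : (a, b, c, d) ∈ Q N) (hc : c < a) :
    (b + d, c, b, a - c) ∈ Q N ∧ b < b + d ∧ tau (b + d, c, b, a - c) = (a, b, c, d) := by
  rw [mem_Q] at h ⊢
  obtain ⟨ha, hb, hc0, hd, hN⟩ := h
  obtain ⟨e, rfl⟩ : ∃ e, a = c + e := ⟨a - c, by omega⟩
  rw [Nat.add_sub_cancel_left]
  refine ⟨⟨by omega, hc0, hb, by omega, ?_⟩, by omega, ?_⟩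
  · rw [← hN]; ring
  · simp [tau]

theorem l_tau (N α β γ δ α' δ' : ℕ)
    (h1 : ∀ a b c d, pat α β γ δ a b c d → c < a → pat α' γ β δ' (b + d) c b (a - c))
    (h2 : ∀ a b c d, pat α' γ β δ' a b c d → c < a → pat α β γ δ (b + d) c b (a - c)) :
    l N α β γ δ = l N α' γ β δ' := by
  refine cnt_bij N N _ _ tau tau ?_ ?_
  · intro a b c d h hp
    obtain ⟨t1, t2, t3⟩ := tau_mem h hp.1
    exact ⟨t1, ⟨t2, h1 a b c d hp.2 hp.1⟩, t3⟩
  · intro a b c d h hp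
    obtain ⟨t1, t2, t3⟩ := tau_mem h hp.1
    exact ⟨t1, ⟨t2, h2 a b c d hp.2 hp.1⟩, t3⟩

theorem t0110 (N : ℕ) : l N 0 1 1 0 = l N 1 1 1 1 := by
  refine l_tau N 0 1 1 0 1 1 ?_ ?_ <;> intro a b c d h hc <;> simp only [pat] at * <;> omega

theorem t0001 (N : ℕ) : l N 0 0 0 1 = l N 1 0 0 0 := by
  refine l_tau N 0 0 0 1 1 0 ?_ ?_ <;> intro a b c d h hc <;> simp only [pat] at * <;> omega

theorem t0010 (N : ℕ) : l N 0 0 1 0 = l N 0 1 0 1 := by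
  refine l_tau N 0 0 1 0 0 1 ?_ ?_ <;> intro a b c d h hc <;> simp only [pat] at * <;> omega

theorem t0100 (N : ℕ) : l N 0 1 0 0 = l N 1 0 1 0 := by
  refine l_tau N 0 1 0 0 1 0 ?_ ?_ <;> intro a b c d h hc <;> simp only [pat] at * <;> omega

/-- exchange of the two pairs -/
theorem swap_pairs (N : ℕ) (p q : ℕ → ℕ → ℕ → ℕ → Prop) (h1 : ∀ a b c d, p a b c d → q c d a b)
    (h2 : ∀ a b c d, q a b c d → p c d a b) : cnt N p = cnt N q := by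
  refine cnt_bij N N p q (fun x => (x.2.2.1, x.2.2.2, x.1, x.2.1))
    (fun x => (x.2.2.1, x.2.2.2, x.1, x.2.1)) ?_ ?_
  · intro a b c d h hp
    rw [mem_Q] at h
    refine ⟨mem_Q.2 ⟨h.2.2.1, h.2.2.2.1, h.1, h.2.1, ?_⟩, h1 a b c d hp, rfl⟩
    rw [add_comm]; exact h.2.2.2.2
  · intro a b c d h hp
    rw [mem_Q] at h
    refine ⟨mem_Q.2 ⟨h.2.2.1, h.2.2.2.1, h.1, h.2.1, ?_⟩, h2 a b c d hp, rfl⟩
    rw [add_comm]; exact h.2.2.2.2

/-- exchange within both pairs -/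
theorem swap_both (N : ℕ) (p q : ℕ → ℕ → ℕ → ℕ → Prop) (h1 : ∀ a b c d, p a b c d → q b a d c)
    (h2 : ∀ a b c d, q a b c d → p b a d c) : cnt N p = cnt N q := by
  refine cnt_bij N N p q (fun x => (x.2.1, x.1, x.2.2.2, x.2.2.1))
    (fun x => (x.2.1, x.1, x.2.2.2, x.2.2.1)) ?_ ?_
  · intro a b c d h hp
    rw [mem_Q] at h
    refine ⟨mem_Q.2 ⟨h.2.1, h.1, h.2.2.2.1, h.2.2.1, ?_⟩, h1 a b c d hp, rfl⟩
    rw [mul_comm b, mul_comm d]; exact h.2.2.2.2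
  · intro a b c d h hp
    rw [mem_Q] at h
    refine ⟨mem_Q.2 ⟨h.2.1, h.1, h.2.2.2.1, h.2.2.1, ?_⟩, h2 a b c d hp, rfl⟩
    rw [mul_comm b, mul_comm d]; exact h.2.2.2.2

/-- exchange within the second pair -/
theorem swap_second (N : ℕ) (p q : ℕ → ℕ → ℕ → ℕ → Prop) (h1 : ∀ a b c d, p a b c d → q a b d c)
    (h2 : ∀ a b c d, q a b c d → p a b d c) : cnt N p = cnt N q := by
  refine cnt_bij N N p q (fun x => (x.1, x.2.1, x.2.2.2, x.2.2.1))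
    (fun x => (x.1, x.2.1, x.2.2.2, x.2.2.1)) ?_ ?_
  · intro a b c d h hp
    rw [mem_Q] at h
    refine ⟨mem_Q.2 ⟨h.1, h.2.1, h.2.2.2.1, h.2.2.1, ?_⟩, h1 a b c d hp, rfl⟩
    rw [mul_comm d]; exact h.2.2.2.2
  · intro a b c d h hp
    rw [mem_Q] at h
    refine ⟨mem_Q.2 ⟨h.1, h.2.1, h.2.2.2.1, h.2.2.1, ?_⟩, h2 a b c d hp, rfl⟩
    rw [mul_comm d]; exact h.2.2.2.2

/-- exchange within the first pair -/
theorem swap_first (N : ℕ) (p q : ℕ → ℕ → ℕ → ℕ → Prop) (h1 : ∀ a b c d, p a b c d → q b a c d)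
    (h2 : ∀ a b c d, q a b c d → p b a c d) : cnt N p = cnt N q := by
  refine cnt_bij N N p q (fun x => (x.2.1, x.1, x.2.2.1, x.2.2.2))
    (fun x => (x.2.1, x.1, x.2.2.1, x.2.2.2)) ?_ ?_
  · intro a b c d h hp
    rw [mem_Q] at h
    refine ⟨mem_Q.2 ⟨h.2.1, h.1, h.2.2.1, h.2.2.2.1, ?_⟩, h1 a b c d hp, rfl⟩
    rw [mul_comm b]; exact h.2.2.2.2
  · intro a b c d h hp
    rw [mem_Q] at h
    refine ⟨mem_Q.2 ⟨h.2.1, h.1, h.2.2.1, h.2.2.2.1, ?_⟩, h2 a b c d hp, rfl⟩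
    rw [mul_comm b]; exact h.2.2.2.2

open scoped Classical in
theorem cnt_three (N : ℕ) (p p1 p2 p3 : ℕ → ℕ → ℕ → ℕ → Prop)
    (h : ∀ a b c d, (a, b, c, d) ∈ Q N →
      (if p a b c d then 1 else 0 : ℕ) = (if p1 a b c d then 1 else 0) +
        (if p2 a b c d then 1 else 0) + (if p3 a b c d then 1 else 0)) :
    cnt N p = cnt N p1 + cnt N p2 + cnt N p3 := by
  simp only [cnt_sum]
  rw [← sum_add_distrib, ← sum_add_distrib]
  refine sum_congr rfl ?_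
  rintro ⟨a, b, c, d⟩ hx
  exact h a b c d hx

open scoped Classical in
theorem cnt_zero (N : ℕ) (p : ℕ → ℕ → ℕ → ℕ → Prop)
    (h : ∀ a b c d, (a, b, c, d) ∈ Q N → ¬ p a b c d) : cnt N p = 0 := by
  rw [cnt, card_eq_zero, filter_eq_empty_iff]
  rintro ⟨a, b, c, d⟩ hx
  exact h a b c d hx

theorem full_split (N α β γ δ : ℕ) :
    full N α β γ δ = l N α β γ δ + l N γ δ α β + eqs N α β γ δ := by
  have h : l N γ δ α β = cnt N (fun a b c d => a < c ∧ pat α β γ δ a b c d) := by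
    refine swap_pairs N _ _ ?_ ?_ <;> intro a b c d h <;> simp only [pat] at * <;> tauto
  rw [h]
  refine cnt_three N _ _ _ _ ?_
  intro a b c d _
  by_cases hp : pat α β γ δ a b c d
  · rcases lt_trichotomy a c with h1 | h1 | h1
    · simp [hp, h1, h1.ne, h1.le]
    · subst h1
      simp [hp]
    · simp [hp, h1, h1.ne', h1.le]
  · simp [hp]

/-- `a b + c d` modulo four -/
theorem mod4 {N M a b c d : ℕ} (hN : N = 2 * M) (hM : M % 2 = 1) (h : (a, b, c, d) ∈ Q N) :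
    (a * b + c * d) % 4 = 2 := by
  rw [mem_Q] at h
  omega

theorem no0000 {N M a b c d : ℕ} (hN : N = 2 * M) (hM : M % 2 = 1) (h : (a, b, c, d) ∈ Q N) :
    ¬ (a % 2 = 0 ∧ b % 2 = 0 ∧ c % 2 = 0 ∧ d % 2 = 0) := by
  rintro ⟨h1, h2, h3, h4⟩
  have h5 := mod4 hN hM h
  obtain ⟨a', rfl⟩ : ∃ a', a = 2 * a' := ⟨a / 2, by omega⟩
  obtain ⟨b', rfl⟩ : ∃ b', b = 2 * b' := ⟨b / 2, by omega⟩
  obtain ⟨c', rfl⟩ : ∃ c', c = 2 * c' := ⟨c / 2, by omega⟩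
  obtain ⟨d', rfl⟩ : ∃ d', d = 2 * d' := ⟨d / 2, by omega⟩
  have : 2 * a' * (2 * b') + 2 * c' * (2 * d') = 4 * (a' * b' + c' * d') := by ring
  omega

theorem parity {N M a b c d : ℕ} (hN : N = 2 * M) (h : (a, b, c, d) ∈ Q N) :
    (a % 2 * (b % 2) + c % 2 * (d % 2)) % 2 = 0 := by
  rw [mem_Q] at h
  have h1 : (a * b + c * d) % 2 = 0 := by omega
  rw [Nat.add_mod, Nat.mul_mod a b, Nat.mul_mod c d] at h1
  rw [Nat.add_mod]
  exact h1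

open scoped Classical in
/-- the nine patterns -/
theorem nine {N M : ℕ} (hN : N = 2 * M) (hM : M % 2 = 1) (p : ℕ → ℕ → ℕ → ℕ → Prop)
    (w : ℕ → ℕ → ℕ → ℕ → ℕ) (hp : ∀ a b c d, (if p a b c d then 1 else 0 : ℕ) =
      if c < a then w (a % 2) (b % 2) (c % 2) (d % 2) else 0) :
    cnt N p = w 1 1 1 1 * l N 1 1 1 1 + w 0 0 0 1 * l N 0 0 0 1 + w 0 0 1 0 * l N 0 0 1 0 +
      w 0 1 0 0 * l N 0 1 0 0 + w 1 0 0 0 * l N 1 0 0 0 + w 0 1 0 1 * l N 0 1 0 1 +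
      w 0 1 1 0 * l N 0 1 1 0 + w 1 0 0 1 * l N 1 0 0 1 + w 1 0 1 0 * l N 1 0 1 0 := by
  simp only [l, cnt_sum, mul_sum]
  simp only [← sum_add_distrib]
  refine sum_congr rfl ?_
  rintro ⟨a, b, c, d⟩ hx
  simp only
  rw [hp a b c d]
  have h1 := parity hN hx
  have h2 := no0000 hN hM hx
  by_cases hc : c < a
  · simp only [hc, true_and, if_true, pat]
    rcases Nat.mod_two_eq_zero_or_one a with ha | ha <;>
    rcases Nat.mod_two_eq_zero_or_one b with hb | hb <;>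
    rcases Nat.mod_two_eq_zero_or_one c with hc' | hc' <;>
    rcases Nat.mod_two_eq_zero_or_one d with hd | hd <;>
    simp only [ha, hb, hc', hd] at h1 h2 ⊢ <;> simp at h1 h2 ⊢
  · simp [hc]

end Pool.Agent.H312.Rk
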