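import Pool.Agent.H312.RkA

set_option autoImplicit false

namespace Pool.Agent.H312.Rk

open Finset

/-! Involutions -/

theorem even_of_inv {α : Type*} (s : Finset α) (f : α → α) (hm : ∀ a ∈ s, f a ∈ s)
    (hf : ∀ a ∈ s, f (f a) = a) (hne : ∀ a ∈ s, f a ≠ a) : Even s.card := by
  have h : ∑ x ∈ s, (1 : ZMod 2) = 0 := by
    refine sum_involution (fun a _ => f a) ?_ ?_ ?_ ?_
    · intro a _; decide
    · intro a ha _; exact hne a ha
    · intro a ha; exact hm a ha
    · intro a ha; exact hf a ha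
  rw [sum_const, nsmul_eq_mul, mul_one] at h
  exact (ZMod.natCast_eq_zero_iff_even).1 h

open scoped Classical in
theorem card_fix {α : Type*} (s : Finset α) (f : α → α) (hm : ∀ a ∈ s, f a ∈ s)
    (hf : ∀ a ∈ s, f (f a) = a) : s.card % 2 = (s.filter (fun a => f a = a)).card % 2 := by
  have h1 := card_filter_add_card_filter_not (s := s) (fun a => f a = a)
  have h2 : Even (s.filter (fun a => ¬ f a = a)).card := by
    refine even_of_inv _ f ?_ ?_ ?_
    · intro a ha
      rw [mem_filter] at ha ⊢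
      refine ⟨hm a ha.1, fun h => ha.2 ?_⟩
      rw [hf a ha.1] at h
      exact h.symm
    · intro a ha
      exact hf a (mem_filter.1 ha).1
    · intro a ha
      exact (mem_filter.1 ha).2
  obtain ⟨k, hk⟩ := h2
  omega

open scoped Classical in
theorem cnt_inv (N : ℕ) (p q : ℕ → ℕ → ℕ → ℕ → Prop) (f : R4 → R4)
    (hm : ∀ a b c d, (a, b, c, d) ∈ Q N → p a b c d →
      f (a, b, c, d) ∈ Q N ∧ p (f (a, b, c, d)).1 (f (a, b, c, d)).2.1 (f (a, b, c, d)).2.2.1
        (f (a, b, c, d)).2.2.2 ∧ f (f (a, b, c, d)) = (a, b, c, d))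
    (hq : ∀ a b c d, (a, b, c, d) ∈ Q N → p a b c d → (f (a, b, c, d) = (a, b, c, d) ↔ q a b c d)) :
    cnt N p % 2 = cnt N (fun a b c d => p a b c d ∧ q a b c d) % 2 := by
  rw [cnt, card_fix _ f]
  · congr 2
    ext ⟨a, b, c, d⟩
    simp only [mem_filter]
    constructor
    · rintro ⟨⟨hx, h1⟩, h2⟩
      exact ⟨hx, h1, (hq a b c d hx h1).1 h2⟩
    · rintro ⟨hx, h1, h2⟩
      exact ⟨⟨hx, h1⟩, (hq a b c d hx h1).2 h2⟩
  · rintro ⟨a, b, c, d⟩ h
    rw [mem_filter] at h ⊢
    exact ⟨(hm a b c d h.1 h.2).1, (hm a b c d h.1 h.2).2.1⟩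
  · rintro ⟨a, b, c, d⟩ h
    rw [mem_filter] at h
    exact (hm a b c d h.1 h.2).2.2

/-! Pairs `x² + 2 y² = M` -/

def W (M : ℕ) : Finset (ℕ × ℕ) :=
  ((range (M + 1)) ×ˢ (range (M + 1))).filter
    (fun x => 0 < x.1 ∧ 0 < x.2 ∧ x.1 * x.1 + 2 * (x.2 * x.2) = M)

theorem mem_W {M x y : ℕ} : (x, y) ∈ W M ↔ 0 < x ∧ 0 < y ∧ x * x + 2 * (y * y) = M := by
  rw [W, mem_filter, mem_product, mem_range, mem_range]
  simp only
  constructor
  · rintro ⟨_, h⟩
    exact h
  · rintro ⟨hx, hy, h⟩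
    refine ⟨⟨?_, ?_⟩, hx, hy, h⟩ <;> nlinarith

/-! Relations between the counts -/

section rel

variable {N M : ℕ}

theorem sq_mod8 {x : ℕ} (h : x % 2 = 1) : x * x % 8 = 1 := by
  have h1 : x % 8 = 1 ∨ x % 8 = 3 ∨ x % 8 = 5 ∨ x % 8 = 7 := by omega
  rcases h1 with h1 | h1 | h1 | h1 <;> rw [Nat.mul_mod, h1]

theorem V_eq (N : ℕ) : full N 0 0 1 0 = l N 0 0 1 0 + l N 1 0 0 0 := by
  rw [full_split]
  have : eqs N 0 0 1 0 = 0 := by
    refine cnt_zero N _ ?_
    rintro a b c d _ ⟨h, h1, h2, h3, h4⟩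
    omega
  rw [this]; rfl

theorem U_eq (hN : N = 2 * M) (hM : M % 2 = 1) : full N 0 1 0 1 = 2 * l N 0 1 0 1 := by
  rw [full_split]
  have : eqs N 0 1 0 1 = 0 := by
    refine cnt_zero N _ ?_
    rintro a b c d hx ⟨h, h1, h2, h3, h4⟩
    have h5 := mod4 hN hM hx
    subst h
    obtain ⟨a', rfl⟩ : ∃ a', a = 2 * a' := ⟨a / 2, by omega⟩
    obtain ⟨e, he⟩ : ∃ e, b + d = 2 * e := ⟨(b + d) / 2, by omega⟩
    have h6 : 2 * a' * b + 2 * a' * d = 4 * (a' * e) := by
      rw [← mul_add, he]; ring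
    omega
  rw [this]; ring

theorem U_eq' (N : ℕ) : full N 0 1 0 1 = 2 * l N 1 0 1 0 + eqs N 1 0 1 0 := by
  have h : full N 0 1 0 1 = full N 1 0 1 0 := by
    refine swap_both N _ _ ?_ ?_ <;> intro a b c d h <;> simp only [pat] at * <;> tauto
  rw [h, full_split]; ring

theorem U_eq'' (N : ℕ) : full N 0 1 0 1 = l N 1 0 0 1 + l N 0 1 1 0 := by
  have h : full N 0 1 0 1 = full N 1 0 1 0 := by
    refine swap_both N _ _ ?_ ?_ <;> intro a b c d h <;> simp only [pat] at * <;> tauto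
  have h' : full N 1 0 1 0 = full N 1 0 0 1 := by
    refine swap_second N _ _ ?_ ?_ <;> intro a b c d h <;> simp only [pat] at * <;> tauto
  rw [h, h', full_split]
  have : eqs N 1 0 0 1 = 0 := by
    refine cnt_zero N _ ?_
    rintro a b c d _ ⟨h, h1, h2, h3, h4⟩
    omega
  rw [this]; rfl

theorem total (hN : N = 2 * M) (hM : M % 2 = 1) :
    cnt N (fun a _ c _ => c < a) + eqs N 1 0 1 0 =
      l N 1 1 1 1 + 2 * full N 0 1 0 1 + 2 * full N 0 0 1 0 := by
  classical
  have h := nine hN hM (fun a _ c _ => c < a) (fun _ _ _ _ => 1)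
    (fun a b c d => by by_cases h : c < a <;> simp [h])
  have h1 := V_eq N
  have h3 := U_eq' N
  have h4 := U_eq'' N
  have h5 := t0110 N
  have h6 := t0001 N
  have h7 := t0010 N
  have h8 := t0100 N
  omega

theorem rk2_odd (hN : N = 2 * M) (hM : M % 2 = 1) :
    cnt N (fun a _ c d => c < a ∧ (a + c + d) % 2 = 1) =
      2 * l N 1 1 1 1 + 2 * full N 0 0 1 0 := by
  classical
  have h := nine hN hM (fun a _ c d => c < a ∧ (a + c + d) % 2 = 1)
    (fun a _ c d => (a + c + d) % 2) (by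
      intro a b c d
      by_cases hc : c < a
      · simp only [hc, true_and, if_true]
        have : (a % 2 + c % 2 + d % 2) % 2 = (a + c + d) % 2 := by omega
        rw [this]
        split_ifs with h1
        · exact h1.symm
        · omega
      · simp [hc])
  have h1 := V_eq N
  have h5 := t0110 N
  have h6 := t0001 N
  have h7 := t0010 N
  norm_num at h
  omega

theorem rk_odd (hN : N = 2 * M) (hM : M % 2 = 1) :
    cnt N (fun a b c d => c < a ∧ (a + b + d) % 2 = 1) + eqs N 1 0 1 0 =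
      2 * l N 1 1 1 1 + 2 * full N 0 0 1 0 := by
  classical
  have h := nine hN hM (fun a b c d => c < a ∧ (a + b + d) % 2 = 1)
    (fun a b _ d => (a + b + d) % 2) (by
      intro a b c d
      by_cases hc : c < a
      · simp only [hc, true_and, if_true]
        have : (a % 2 + b % 2 + d % 2) % 2 = (a + b + d) % 2 := by omega
        rw [this]
        split_ifs with h1
        · exact h1.symm
        · omega
      · simp [hc])
  have h1 := V_eq N
  have h2 := U_eq hN hM
  have h3 := U_eq' N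
  have h5 := t0110 N
  have h6 := t0001 N
  have h7 := t0010 N
  have h8 := t0100 N
  norm_num at h
  omega

end rel

end Pool.Agent.H312.Rk
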