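import Pool.Agent.H312.RkB

set_option autoImplicit false

namespace Pool.Agent.H312.Rk

open Finset

section C

variable {N M : ℕ}

open scoped Classical in
theorem mem_cnt {p : ℕ → ℕ → ℕ → ℕ → Prop} {a b c d : ℕ} :
    (a, b, c, d) ∈ ((((Q N).filter (fun x => p x.1 x.2.1 x.2.2.1 x.2.2.2)) : Finset R4) : Set R4) ↔
      (0 < a ∧ 0 < b ∧ 0 < c ∧ 0 < d ∧ a * b + c * d = N) ∧ p a b c d := by
  rw [mem_coe, mem_filter, mem_Q]

/-- the divisors sum and their number -/
def sig (M : ℕ) : ℕ := ∑ a ∈ M.divisors, a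

theorem odd_dvd {a M e : ℕ} (h : a * (2 * e) = 2 * M) : a * e = M := by
  have : 2 * (a * e) = 2 * M := by rw [← h]; ring
  omega

open scoped Classical in
theorem eqs_1111 (hN : N = 2 * M) (hM : M % 2 = 1) : eqs N 1 1 1 1 = sig M := by
  have h1 : sig M = (M.divisors.sigma (fun a => range (M / a))).card := by
    rw [card_sigma, sig, ← Nat.sum_div_divisors M (fun a => a)]
    simp
  rw [h1, eqs, cnt]
  refine card_nbij' (fun x => ⟨x.1, x.2.1 / 2⟩)
    (fun y => (y.1, 2 * y.2 + 1, y.1, 2 * (M / y.1) - (2 * y.2 + 1))) ?_ ?_ ?_ ?_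
  · rintro ⟨a, b, c, d⟩ hx
    simp only [mem_coe, mem_filter] at hx
    simp only [pat, mem_Q] at hx
    obtain ⟨⟨ha, hb, hc, hd, h⟩, hac, p1, p2, p3, p4⟩ := hx
    subst hac
    obtain ⟨e, he⟩ : ∃ e, b + d = 2 * e := ⟨(b + d) / 2, by omega⟩
    have h2 : a * e = M := odd_dvd (by rw [← he, mul_add, h, hN])
    simp only [mem_coe, mem_sigma, mem_range, Nat.mem_divisors]
    refine ⟨⟨⟨e, h2.symm⟩, by omega⟩, ?_⟩
    rw [← h2, Nat.mul_div_cancel_left _ ha]
    omega
  · rintro ⟨a, k⟩ hx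
    simp only [mem_coe, mem_sigma, mem_range, Nat.mem_divisors] at hx
    obtain ⟨⟨⟨e, he⟩, hM0⟩, hk⟩ := hx
    have ha : 0 < a := Nat.pos_of_ne_zero (by rintro rfl; omega)
    rw [he, Nat.mul_div_cancel_left _ ha] at hk
    simp only [mem_coe, mem_filter]
    simp only [pat, mem_Q]
    rw [he, Nat.mul_div_cancel_left _ ha]
    have hodd : a % 2 = 1 := by
      rcases Nat.mod_two_eq_zero_or_one a with h | h
      · rw [he, Nat.mul_mod, h] at hM; simp at hM
      · exact h
    refine ⟨⟨ha, by omega, ha, by omega, ?_⟩, trivial, hodd, by omega, hodd, by omega⟩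
    rw [← mul_add, show 2 * k + 1 + (2 * e - (2 * k + 1)) = 2 * e by omega, hN, he]
    ring
  · rintro ⟨a, b, c, d⟩ hx
    simp only [mem_coe, mem_filter] at hx
    simp only [pat, mem_Q] at hx
    obtain ⟨⟨ha, hb, hc, hd, h⟩, hac, p1, p2, p3, p4⟩ := hx
    subst hac
    obtain ⟨e, he⟩ : ∃ e, b + d = 2 * e := ⟨(b + d) / 2, by omega⟩
    have h2 : a * e = M := odd_dvd (by rw [← he, mul_add, h, hN])
    simp only [Prod.mk.injEq, true_and]
    rw [← h2, Nat.mul_div_cancel_left _ ha]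
    omega
  · rintro ⟨a, k⟩ _
    simp only [Sigma.mk.injEq, heq_eq_eq, true_and]
    omega

open scoped Classical in
theorem eqs_1010 (hN : N = 2 * M) (hM : M % 2 = 1) :
    eqs N 1 0 1 0 + M.divisors.card = sig M := by
  have h1 : sig M = (M.divisors.sigma (fun a => range (M / a - 1))).card + M.divisors.card := by
    rw [card_sigma, sig, ← Nat.sum_div_divisors M (fun a => a), card_eq_sum_ones,
      ← sum_add_distrib]
    refine sum_congr rfl fun a ha => ?_
    rw [Nat.mem_divisors] at ha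
    have : 0 < M / a := Nat.div_pos (Nat.le_of_dvd (by omega) ha.1)
      (Nat.pos_of_dvd_of_pos ha.1 (by omega))
    rw [card_range]
    omega
  rw [h1, eqs, cnt]
  congr 1
  refine card_nbij' (fun x => ⟨x.1, x.2.1 / 2 - 1⟩)
    (fun y => (y.1, 2 * y.2 + 2, y.1, 2 * (M / y.1) - (2 * y.2 + 2))) ?_ ?_ ?_ ?_
  · rintro ⟨a, b, c, d⟩ hx
    simp only [mem_coe, mem_filter] at hx
    simp only [pat, mem_Q] at hx
    obtain ⟨⟨ha, hb, hc, hd, h⟩, hac, p1, p2, p3, p4⟩ := hx
    subst hac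
    obtain ⟨e, he⟩ : ∃ e, b + d = 2 * e := ⟨(b + d) / 2, by omega⟩
    have h2 : a * e = M := odd_dvd (by rw [← he, mul_add, h, hN])
    simp only [mem_coe, mem_sigma, mem_range, Nat.mem_divisors]
    refine ⟨⟨⟨e, h2.symm⟩, by omega⟩, ?_⟩
    rw [← h2, Nat.mul_div_cancel_left _ ha]
    omega
  · rintro ⟨a, k⟩ hx
    simp only [mem_coe, mem_sigma, mem_range, Nat.mem_divisors] at hx
    obtain ⟨⟨⟨e, he⟩, hM0⟩, hk⟩ := hx
    have ha : 0 < a := Nat.pos_of_ne_zero (by rintro rfl; omega)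
    rw [he, Nat.mul_div_cancel_left _ ha] at hk
    simp only [mem_coe, mem_filter]
    simp only [pat, mem_Q]
    rw [he, Nat.mul_div_cancel_left _ ha]
    have hodd : a % 2 = 1 := by
      rcases Nat.mod_two_eq_zero_or_one a with h | h
      · rw [he, Nat.mul_mod, h] at hM; simp at hM
      · exact h
    refine ⟨⟨ha, by omega, ha, by omega, ?_⟩, trivial, hodd, by omega, hodd, by omega⟩
    rw [← mul_add, show 2 * k + 2 + (2 * e - (2 * k + 2)) = 2 * e by omega, hN, he]
    ring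
  · rintro ⟨a, b, c, d⟩ hx
    simp only [mem_coe, mem_filter] at hx
    simp only [pat, mem_Q] at hx
    obtain ⟨⟨ha, hb, hc, hd, h⟩, hac, p1, p2, p3, p4⟩ := hx
    subst hac
    obtain ⟨e, he⟩ : ∃ e, b + d = 2 * e := ⟨(b + d) / 2, by omega⟩
    have h2 : a * e = M := odd_dvd (by rw [← he, mul_add, h, hN])
    simp only [Prod.mk.injEq, true_and]
    rw [← h2, Nat.mul_div_cancel_left _ ha]
    omega
  · rintro ⟨a, k⟩ _
    simp only [Sigma.mk.injEq, heq_eq_eq, true_and]
    omega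

open scoped Classical in
theorem V_mod (hN : N = 2 * M) (hM : M % 2 = 1) : full N 0 0 1 0 % 2 = (W M).card % 2 := by
  have h := cnt_inv N (pat 0 0 1 0) (fun a b c d => a = b ∧ d = 2 * c)
    (fun x => (x.2.1, x.1, x.2.2.2 / 2, 2 * x.2.2.1)) (by
      intro a b c d hx hp
      have h4 := mod4 hN hM hx
      rw [mem_Q] at hx
      obtain ⟨ha, hb, hc, hd, h⟩ := hx
      simp only [pat] at hp ⊢
      obtain ⟨a', rfl⟩ : ∃ a', a = 2 * a' := ⟨a / 2, by omega⟩
      obtain ⟨b', rfl⟩ : ∃ b', b = 2 * b' := ⟨b / 2, by omega⟩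
      obtain ⟨d', rfl⟩ : ∃ d', d = 2 * d' := ⟨d / 2, by omega⟩
      have e1 : 2 * (2 * (a' * b') + c * d') = 2 * M := by rw [← hN, ← h]; ring
      have e2 : (c * d') % 2 = 1 := by omega
      have e3 : d' % 2 = 1 := by
        rcases Nat.mod_two_eq_zero_or_one d' with h | h
        · rw [Nat.mul_mod, h] at e2; simp at e2
        · exact h
      rw [Nat.mul_div_cancel_left _ (by norm_num : 0 < 2)]
      refine ⟨mem_Q.2 ⟨hb, ha, by omega, by omega, ?_⟩, ⟨by omega, by omega, e3, by omega⟩, ?_⟩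
      · rw [← h]; ring
      · rw [Nat.mul_div_cancel_left _ (by norm_num : 0 < 2)]) (by
      intro a b c d hx hp
      simp only [pat] at hp
      simp only [Prod.mk.injEq]
      omega)
  rw [full, h]
  congr 1
  rw [cnt]
  refine card_nbij' (fun x => (x.2.2.1, x.1 / 2)) (fun y => (2 * y.2, 2 * y.2, y.1, 2 * y.1))
    ?_ ?_ ?_ ?_
  · rintro ⟨a, b, c, d⟩ hx
    simp only [mem_coe, mem_filter] at hx
    simp only [pat, mem_Q] at hx
    obtain ⟨⟨ha, hb, hc, hd, h⟩, ⟨p1, p2, p3, p4⟩, rfl, rfl⟩ := hx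
    obtain ⟨a', rfl⟩ : ∃ a', a = 2 * a' := ⟨a / 2, by omega⟩
    simp only [mem_coe, mem_W]
    rw [Nat.mul_div_cancel_left _ (by norm_num : 0 < 2)]
    refine ⟨hc, by omega, ?_⟩
    have : 2 * (c * c + 2 * (a' * a')) = 2 * M := by rw [← hN, ← h]; ring
    omega
  · rintro ⟨x, y⟩ hx
    rw [mem_coe, mem_W] at hx
    obtain ⟨hx0, hy0, h⟩ := hx
    simp only [mem_coe, mem_filter]
    simp only [pat, mem_Q]
    have hodd : x % 2 = 1 := by
      rcases Nat.mod_two_eq_zero_or_one x with h' | h'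
      · have : (x * x) % 2 = 0 := by rw [Nat.mul_mod, h']
        omega
      · exact h'
    refine ⟨⟨by omega, by omega, hx0, by omega, ?_⟩, ⟨by omega, by omega, hodd, by omega⟩,
      trivial, trivial⟩
    rw [hN, ← h]; ring
  · rintro ⟨a, b, c, d⟩ hx
    simp only [mem_coe, mem_filter] at hx
    simp only [pat, mem_Q] at hx
    obtain ⟨⟨ha, hb, hc, hd, h⟩, ⟨p1, p2, p3, p4⟩, rfl, rfl⟩ := hx
    show (2 * (a / 2), 2 * (a / 2), c, 2 * c) = (a, a, c, 2 * c)
    rw [show 2 * (a / 2) = a by omega]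
  · rintro ⟨x, y⟩ _
    show (x, 2 * y / 2) = (x, y)
    rw [Nat.mul_div_cancel_left _ (by norm_num : 0 < 2)]

/-- all odd, `a < b`, `c < d` -/
noncomputable def G1 (N : ℕ) : ℕ := cnt N (fun a b c d => pat 1 1 1 1 a b c d ∧ a < b ∧ c < d)

/-- all odd, `a = b`, `c < d` -/
noncomputable def G2 (N : ℕ) : ℕ := cnt N (fun a b c d => pat 1 1 1 1 a b c d ∧ a = b ∧ c < d)

open scoped Classical in
theorem split_ab (N : ℕ) (p : ℕ → ℕ → ℕ → ℕ → Prop) (hp : ∀ a b c d, p a b c d → p b a c d) :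
    cnt N p = 2 * cnt N (fun a b c d => p a b c d ∧ a < b) +
      cnt N (fun a b c d => p a b c d ∧ a = b) := by
  have h : cnt N (fun a b c d => p a b c d ∧ b < a) = cnt N (fun a b c d => p a b c d ∧ a < b) :=
    swap_first N _ _ (fun a b c d h => ⟨hp a b c d h.1, h.2⟩) (fun a b c d h => ⟨hp a b c d h.1, h.2⟩)
  have h2 := cnt_three N p (fun a b c d => p a b c d ∧ a < b) (fun a b c d => p a b c d ∧ b < a)
    (fun a b c d => p a b c d ∧ a = b) (by
      intro a b c d _
      by_cases hq : p a b c d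
      · rcases lt_trichotomy a b with h1 | h1 | h1
        · simp [hq, h1, h1.ne, h1.le]
        · subst h1; simp [hq]
        · simp [hq, h1, h1.ne', h1.le]
      · simp [hq])
  rw [h2, h]; ring

open scoped Classical in
theorem split_cd (N : ℕ) (p : ℕ → ℕ → ℕ → ℕ → Prop) (hp : ∀ a b c d, p a b c d → p a b d c) :
    cnt N p = 2 * cnt N (fun a b c d => p a b c d ∧ c < d) +
      cnt N (fun a b c d => p a b c d ∧ c = d) := by
  have h : cnt N (fun a b c d => p a b c d ∧ d < c) = cnt N (fun a b c d => p a b c d ∧ c < d) :=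
    swap_second N _ _ (fun a b c d h => ⟨hp a b c d h.1, h.2⟩) (fun a b c d h => ⟨hp a b c d h.1, h.2⟩)
  have h2 := cnt_three N p (fun a b c d => p a b c d ∧ c < d) (fun a b c d => p a b c d ∧ d < c)
    (fun a b c d => p a b c d ∧ c = d) (by
      intro a b c d _
      by_cases hq : p a b c d
      · rcases lt_trichotomy c d with h1 | h1 | h1
        · simp [hq, h1, h1.ne, h1.le]
        · subst h1; simp [hq]
        · simp [hq, h1, h1.ne', h1.le]
      · simp [hq])
  rw [h2, h]; ring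

theorem X_eq (hN : N = 2 * M) (hR : ∀ x y : ℕ, x * x + y * y ≠ 2 * M) :
    full N 1 1 1 1 = 4 * G1 N + 4 * G2 N := by
  have h1 := split_ab N (pat 1 1 1 1) (fun a b c d h => by simp only [pat] at *; tauto)
  have h2 := split_cd N (fun a b c d => pat 1 1 1 1 a b c d ∧ a < b)
    (fun a b c d h => by simp only [pat] at *; tauto)
  have h3 := split_cd N (fun a b c d => pat 1 1 1 1 a b c d ∧ a = b)
    (fun a b c d h => by simp only [pat] at *; tauto)
  have h4 : cnt N (fun a b c d => (pat 1 1 1 1 a b c d ∧ a = b) ∧ c = d) = 0 := by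
    refine cnt_zero N _ ?_
    rintro a b c d hx ⟨⟨_, rfl⟩, rfl⟩
    rw [mem_Q, hN] at hx
    exact hR a c hx.2.2.2.2
  have h5 : cnt N (fun a b c d => (pat 1 1 1 1 a b c d ∧ a < b) ∧ c = d) = G2 N := by
    refine swap_pairs N _ _ ?_ ?_ <;> intro a b c d h <;> simp only [pat] at * <;> tauto
  have h6 : cnt N (fun a b c d => (pat 1 1 1 1 a b c d ∧ a < b) ∧ c < d) = G1 N := by
    unfold G1; congr 1; funext a b c d; simp only [eq_iff_iff]; tauto
  have h7 : cnt N (fun a b c d => (pat 1 1 1 1 a b c d ∧ a = b) ∧ c < d) = G2 N := by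
    unfold G2; congr 1; funext a b c d; simp only [eq_iff_iff]; tauto
  rw [full]
  omega

/-- the number of divisors below the square root -/
def del (M : ℕ) : ℕ := (M.divisors.filter (fun a => a * a < M)).card

theorem card_div (hM0 : 0 < M) (hsq : ∀ x : ℕ, x * x ≠ M) : M.divisors.card = 2 * del M := by
  have h1 := card_filter_add_card_filter_not (s := M.divisors) (fun a => a * a < M)
  have h2 : (M.divisors.filter (fun a => ¬ a * a < M)).card = del M := by
    refine card_nbij' (fun a => M / a) (fun a => M / a) ?_ ?_ ?_ ?_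
    · intro a ha
      rw [coe_filter, Set.mem_ofPred_eq, Nat.mem_divisors] at ha
      obtain ⟨⟨⟨e, he⟩, h0⟩, h⟩ := ha
      have ha0 : 0 < a := Nat.pos_of_ne_zero (by rintro rfl; omega)
      rw [mem_coe, mem_filter, Nat.mem_divisors]
      simp only
      rw [he, Nat.mul_div_cancel_left _ ha0, ← he]
      refine ⟨⟨⟨a, by rw [he, mul_comm]⟩, h0⟩, ?_⟩
      have h3 := hsq a
      by_contra hc
      rw [he] at h h3 hc
      rcases lt_trichotomy a e with h4 | h4 | h4
      · nlinarith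
      · subst h4; exact h3 rfl
      · have he0 : 0 < e := Nat.pos_of_ne_zero (by rintro rfl; omega)
        nlinarith
    · intro a ha
      rw [mem_coe, mem_filter, Nat.mem_divisors] at ha
      obtain ⟨⟨⟨e, he⟩, h0⟩, h⟩ := ha
      have ha0 : 0 < a := Nat.pos_of_ne_zero (by rintro rfl; omega)
      rw [coe_filter, Set.mem_ofPred_eq, Nat.mem_divisors]
      simp only
      rw [he, Nat.mul_div_cancel_left _ ha0, ← he]
      refine ⟨⟨⟨a, by rw [he, mul_comm]⟩, h0⟩, ?_⟩
      intro hc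
      rw [he] at h hc
      rcases lt_trichotomy a e with h4 | h4 | h4 <;> nlinarith
    · intro a ha
      rw [coe_filter, Set.mem_ofPred_eq, Nat.mem_divisors] at ha
      exact Nat.div_div_self ha.1.1 ha.1.2
    · intro a ha
      rw [mem_coe, mem_filter, Nat.mem_divisors] at ha
      exact Nat.div_div_self ha.1.1 ha.1.2
  rw [← h1, h2, del]; ring

open scoped Classical in
theorem G1_mod (hN : N = 2 * M) (hM : M % 2 = 1) : G1 N % 2 = del M % 2 := by
  have h := cnt_inv N (fun a b c d => pat 1 1 1 1 a b c d ∧ a < b ∧ c < d)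
    (fun a b c d => a = c ∧ b = d)
    (fun x => (x.2.2.1, x.2.2.2, x.1, x.2.1)) (by
      intro a b c d hx hp
      rw [mem_Q] at hx
      obtain ⟨ha, hb, hc, hd, h⟩ := hx
      simp only [pat] at hp ⊢
      refine ⟨mem_Q.2 ⟨hc, hd, ha, hb, by rw [← h]; ring⟩, by tauto, trivial⟩) (by
      intro a b c d hx hp
      simp only [Prod.mk.injEq]
      constructor
      · rintro ⟨h1, h2, _, _⟩; exact ⟨h1.symm, h2.symm⟩
      · rintro ⟨rfl, rfl⟩; exact ⟨rfl, rfl, rfl, rfl⟩)
  rw [G1, h]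
  congr 1
  rw [cnt, del]
  refine card_nbij' (fun x => x.1) (fun a => (a, M / a, a, M / a)) ?_ ?_ ?_ ?_
  · rintro ⟨a, b, c, d⟩ hx
    simp only [mem_coe, mem_filter] at hx
    simp only [pat, mem_Q] at hx
    obtain ⟨⟨ha, hb, hc, hd, h⟩, ⟨_, hab, _⟩, rfl, rfl⟩ := hx
    have h2 : a * b = M := by omega
    rw [mem_coe, mem_filter, Nat.mem_divisors]
    refine ⟨⟨⟨b, h2.symm⟩, by omega⟩, ?_⟩
    simp only
    rw [← h2]
    nlinarith
  · intro a ha
    rw [mem_coe, mem_filter, Nat.mem_divisors] at ha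
    obtain ⟨⟨⟨e, he⟩, h0⟩, h⟩ := ha
    have ha0 : 0 < a := Nat.pos_of_ne_zero (by rintro rfl; omega)
    simp only [mem_coe, mem_filter]
    simp only [pat, mem_Q]
    rw [he, Nat.mul_div_cancel_left _ ha0]
    rw [he] at h
    have hae : a < e := by
      by_contra hc
      nlinarith
    have h3 : a % 2 = 1 := by
      rcases Nat.mod_two_eq_zero_or_one a with h' | h'
      · rw [he, Nat.mul_mod, h'] at hM; simp at hM
      · exact h'
    have h4 : e % 2 = 1 := by
      rcases Nat.mod_two_eq_zero_or_one e with h' | h'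
      · rw [he, Nat.mul_mod, h'] at hM; simp at hM
      · exact h'
    refine ⟨⟨ha0, by omega, ha0, by omega, by rw [hN, he]; ring⟩, ⟨⟨h3, h4, h3, h4⟩, hae, hae⟩,
      trivial, trivial⟩
  · rintro ⟨a, b, c, d⟩ hx
    simp only [mem_coe, mem_filter] at hx
    simp only [pat, mem_Q] at hx
    obtain ⟨⟨ha, hb, hc, hd, h⟩, ⟨_, hab, _⟩, rfl, rfl⟩ := hx
    have h2 : a * b = M := by omega
    simp only [Prod.mk.injEq, true_and]
    rw [← h2, Nat.mul_div_cancel_left _ ha]
    exact ⟨rfl, rfl⟩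
  · intro a _
    rfl

end C

end Pool.Agent.H312.Rk
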