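import Pool.Agent.H312.RkC

set_option autoImplicit false

namespace Pool.Agent.H312.Rk

open Finset

/-! Zagier's involution -/

/-- `x² + p² + 4 y z = 2 M` -/
def TT (M : ℕ) : Finset R4 :=
  ((range (2 * M + 1)) ×ˢ (range (2 * M + 1)) ×ˢ (range (2 * M + 1)) ×ˢ (range (2 * M + 1))).filter
    (fun x => 0 < x.1 ∧ 0 < x.2.1 ∧ 0 < x.2.2.1 ∧ 0 < x.2.2.2 ∧
      x.1 * x.1 + x.2.1 * x.2.1 + 4 * (x.2.2.1 * x.2.2.2) = 2 * M)

theorem mem_TT {M x p y z : ℕ} : (x, p, y, z) ∈ TT M ↔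
    0 < x ∧ 0 < p ∧ 0 < y ∧ 0 < z ∧ x * x + p * p + 4 * (y * z) = 2 * M := by
  rw [TT, mem_filter, mem_product, mem_product, mem_product, mem_range, mem_range, mem_range,
    mem_range]
  simp only
  constructor
  · rintro ⟨_, h⟩
    exact h
  · rintro ⟨hx, hp, hy, hz, h⟩
    refine ⟨⟨?_, ?_, ?_, ?_⟩, hx, hp, hy, hz, h⟩ <;> nlinarith

/-- Zagier's map -/
def zag (v : R4) : R4 :=
  if v.2.1 + v.2.2.2 < v.2.2.1 then
    (v.1, v.2.1 + 2 * v.2.2.2, v.2.2.2, v.2.2.1 - (v.2.1 + v.2.2.2))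
  else if 2 * v.2.2.1 < v.2.1 then
    (v.1, v.2.1 - 2 * v.2.2.1, v.2.1 + v.2.2.2 - v.2.2.1, v.2.2.1)
  else (v.1, 2 * v.2.2.1 - v.2.1, v.2.2.1, v.2.1 + v.2.2.2 - v.2.2.1)

theorem mod4_sq (x : ℕ) : x * x % 4 = 0 ∨ x * x % 4 = 1 := by
  have h : x % 4 = 0 ∨ x % 4 = 1 ∨ x % 4 = 2 ∨ x % 4 = 3 := by omega
  rcases h with h | h | h | h <;> rw [Nat.mul_mod, h] <;> norm_num

theorem zag_prop {M : ℕ} (hM : M % 2 = 1) (hR : ∀ x y : ℕ, x * x + y * y ≠ 2 * M)
    {x p y z : ℕ} (h : (x, p, y, z) ∈ TT M) :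
    zag (x, p, y, z) ∈ TT M ∧ zag (zag (x, p, y, z)) = (x, p, y, z) ∧
      (zag (x, p, y, z) = (x, p, y, z) ↔ p = y) := by
  rw [mem_TT] at h
  obtain ⟨hx, hp, hy, hz, h⟩ := h
  have n1 : p + z ≠ y := by
    rintro rfl
    refine hR x (p + 2 * z) ?_
    rw [← h]; ring
  have n2 : p ≠ 2 * y := by
    rintro rfl
    have h1 := mod4_sq x
    have h2 : 2 * y * (2 * y) = 4 * (y * y) := by ring
    omega
  rcases lt_or_gt_of_ne n1 with c1 | c1
  · -- first case
    obtain ⟨t, rfl⟩ : ∃ t, y = p + z + t := ⟨y - (p + z), by omega⟩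
    have e1 : zag (x, p, p + z + t, z) = (x, p + 2 * z, z, t) := by
      simp only [zag]
      rw [if_pos c1, Nat.add_sub_cancel_left]
    rw [e1]
    have e2 : zag (x, p + 2 * z, z, t) = (x, p, p + z + t, z) := by
      simp only [zag]
      rw [if_neg (by omega), if_pos (by omega)]
      simp only [Prod.mk.injEq, true_and, and_true]
      omega
    refine ⟨mem_TT.2 ⟨hx, by omega, hz, by omega, by rw [← h]; ring⟩, e2, ?_⟩
    simp only [Prod.mk.injEq, true_and, and_true]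
    omega
  rcases lt_or_gt_of_ne n2 with c2 | c2
  · -- third case
    obtain ⟨s, hs⟩ : ∃ s, 2 * y = p + s := ⟨2 * y - p, by omega⟩
    obtain ⟨t, ht⟩ : ∃ t, p + z = y + t := ⟨p + z - y, by omega⟩
    have e1 : zag (x, p, y, z) = (x, s, y, t) := by
      simp only [zag]
      rw [if_neg (by omega), if_neg (by omega)]
      simp only [Prod.mk.injEq, true_and, and_true]
      omega
    rw [e1]
    have e2 : zag (x, s, y, t) = (x, p, y, z) := by
      simp only [zag]
      rw [if_neg (by omega), if_neg (by omega)]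
      simp only [Prod.mk.injEq, true_and, and_true]
      omega
    have e3 : s * s + 4 * (y * t) = p * p + 4 * (y * z) := by
      have hs' : (s : ℤ) = 2 * y - p := by omega
      have ht' : (t : ℤ) = p + z - y := by omega
      have : (s : ℤ) * s + 4 * (y * t) = p * p + 4 * (y * z) := by rw [hs', ht']; ring
      exact_mod_cast this
    refine ⟨mem_TT.2 ⟨hx, by omega, hy, by omega, by omega⟩, e2, ?_⟩
    simp only [Prod.mk.injEq, true_and, and_true]
    omega
  · -- second case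
    obtain ⟨s, rfl⟩ : ∃ s, p = 2 * y + s := ⟨p - 2 * y, by omega⟩
    have e1 : zag (x, 2 * y + s, y, z) = (x, s, y + s + z, y) := by
      simp only [zag]
      rw [if_neg (by omega), if_pos (by omega)]
      simp only [Prod.mk.injEq, true_and, and_true]
      omega
    rw [e1]
    have e2 : zag (x, s, y + s + z, y) = (x, 2 * y + s, y, z) := by
      simp only [zag]
      rw [if_pos (by omega)]
      simp only [Prod.mk.injEq, true_and, and_true]
      omega
    refine ⟨mem_TT.2 ⟨hx, by omega, by omega, hy, by rw [← h]; ring⟩, e2, ?_⟩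
    simp only [Prod.mk.injEq, true_and, and_true]
    omega

open scoped Classical in
theorem TT_zag {M : ℕ} (hM : M % 2 = 1) (hR : ∀ x y : ℕ, x * x + y * y ≠ 2 * M) :
    (TT M).card % 2 = G2 (2 * M) % 2 := by
  rw [card_fix (TT M) zag]
  · congr 1
    rw [G2, cnt]
    refine card_nbij' (fun v => (v.1, v.1, v.2.2.1, v.2.2.1 + 4 * v.2.2.2))
      (fun v => (v.1, v.2.2.1, v.2.2.1, (v.2.2.2 - v.2.2.1) / 4)) ?_ ?_ ?_ ?_
    · rintro ⟨x, p, y, z⟩ hv
      simp only [mem_coe, mem_filter] at hv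
      obtain ⟨hv, hf⟩ := hv
      have hpy := (zag_prop hM hR hv).2.2.1 hf
      subst hpy
      rw [mem_TT] at hv
      obtain ⟨hx, hp, hy, hz, h⟩ := hv
      simp only [mem_coe, mem_filter]
      simp only [pat, mem_Q]
      have h1 := mod4_sq x
      have h2 := mod4_sq p
      have ox : x % 2 = 1 := by
        rcases Nat.mod_two_eq_zero_or_one x with h' | h'
        · have : x * x % 4 = 0 := by
            obtain ⟨k, rfl⟩ : ∃ k, x = 2 * k := ⟨x / 2, by omega⟩
            have : 2 * k * (2 * k) = 4 * (k * k) := by ring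
            omega
          omega
        · exact h'
      have op : p % 2 = 1 := by
        rcases Nat.mod_two_eq_zero_or_one p with h' | h'
        · have : p * p % 4 = 0 := by
            obtain ⟨k, rfl⟩ : ∃ k, p = 2 * k := ⟨p / 2, by omega⟩
            have : 2 * k * (2 * k) = 4 * (k * k) := by ring
            omega
          omega
        · exact h'
      refine ⟨⟨hx, hx, hp, by omega, by rw [← h]; ring⟩, ⟨ox, ox, op, by omega⟩, trivial, by omega⟩
    · rintro ⟨a, b, c, d⟩ hv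
      simp only [mem_coe, mem_filter] at hv
      simp only [pat, mem_Q] at hv
      obtain ⟨⟨ha, hb, hc, hd, h⟩, ⟨p1, p2, p3, p4⟩, hab, hcd⟩ := hv
      subst hab
      have h1 := sq_mod8 p1
      obtain ⟨z, hz⟩ : ∃ z, d = c + 4 * z := by
        have h2 : c * d % 4 = 1 := by omega
        have h3 : c % 4 = 1 ∨ c % 4 = 3 := by omega
        have h4 : d % 4 = 1 ∨ d % 4 = 3 := by omega
        have h5 : c % 4 = d % 4 := by
          rcases h3 with h3 | h3 <;> rcases h4 with h4 | h4 <;>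
            rw [Nat.mul_mod, h3, h4] at h2 <;> omega
        exact ⟨(d - c) / 4, by omega⟩
      subst hz
      simp only [mem_coe, mem_filter]
      rw [Nat.add_sub_cancel_left, Nat.mul_div_cancel_left _ (by norm_num : 0 < 4)]
      have hmem : (a, c, c, z) ∈ TT M := mem_TT.2 ⟨ha, hc, hc, by omega, by rw [← h]; ring⟩
      exact ⟨hmem, (zag_prop hM hR hmem).2.2.2 rfl⟩
    · rintro ⟨x, p, y, z⟩ hv
      simp only [mem_coe, mem_filter] at hv
      obtain ⟨hv, hf⟩ := hv
      have hpy := (zag_prop hM hR hv).2.2.1 hf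
      subst hpy
      show (x, p, p, (p + 4 * z - p) / 4) = (x, p, p, z)
      rw [Nat.add_sub_cancel_left, Nat.mul_div_cancel_left _ (by norm_num : 0 < 4)]
    · rintro ⟨a, b, c, d⟩ hv
      simp only [mem_coe, mem_filter] at hv
      simp only [pat, mem_Q] at hv
      obtain ⟨⟨ha, hb, hc, hd, h⟩, ⟨p1, p2, p3, p4⟩, hab, hcd⟩ := hv
      subst hab
      have h1 := sq_mod8 p1
      obtain ⟨z, hz⟩ : ∃ z, d = c + 4 * z := by
        have h2 : c * d % 4 = 1 := by omega
        have h3 : c % 4 = 1 ∨ c % 4 = 3 := by omega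
        have h4 : d % 4 = 1 ∨ d % 4 = 3 := by omega
        have h5 : c % 4 = d % 4 := by
          rcases h3 with h3 | h3 <;> rcases h4 with h4 | h4 <;>
            rw [Nat.mul_mod, h3, h4] at h2 <;> omega
        exact ⟨(d - c) / 4, by omega⟩
      subst hz
      show (a, a, c, c + 4 * ((c + 4 * z - c) / 4)) = (a, a, c, c + 4 * z)
      rw [Nat.add_sub_cancel_left, Nat.mul_div_cancel_left _ (by norm_num : 0 < 4)]
  · rintro ⟨x, p, y, z⟩ hv
    exact (zag_prop hM hR hv).1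
  · rintro ⟨x, p, y, z⟩ hv
    exact (zag_prop hM hR hv).2.1

open scoped Classical in
theorem TT_swap {M : ℕ} : (TT M).card % 2 = (W M).card % 2 := by
  have key : ∀ S : Finset R4, (∀ x p y z : ℕ, (x, p, y, z) ∈ S ↔ (x, p, y, z) ∈ TT M ∧ z = y) →
      S.card % 2 = (W M).card % 2 := by
    intro S hS
    rw [card_fix S (fun v => (v.2.1, v.1, v.2.2.1, v.2.2.2))]
    · congr 1
      refine card_nbij' (fun v => (v.1, v.2.2.1)) (fun w => (w.1, w.1, w.2, w.2)) ?_ ?_ ?_ ?_
      · rintro ⟨x, p, y, z⟩ hv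
        simp only [mem_coe, mem_filter, Prod.mk.injEq] at hv
        simp only [hS, mem_TT] at hv
        obtain ⟨⟨⟨hx, hp, hy, hz, h⟩, h1⟩, h2, _⟩ := hv
        subst h1 h2
        simp only [mem_coe, mem_W]
        refine ⟨hx, hy, ?_⟩
        have : 2 * (p * p + 2 * (z * z)) = 2 * M := by rw [← h]; ring
        omega
      · rintro ⟨x, y⟩ hv
        rw [mem_coe, mem_W] at hv
        obtain ⟨hx, hy, h⟩ := hv
        simp only [mem_coe, mem_filter, Prod.mk.injEq]
        simp only [hS, mem_TT]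
        exact ⟨⟨⟨hx, hx, hy, hy, by rw [← h]; ring⟩, trivial⟩, trivial⟩
      · rintro ⟨x, p, y, z⟩ hv
        simp only [mem_coe, mem_filter, Prod.mk.injEq] at hv
        simp only [hS, mem_TT] at hv
        obtain ⟨⟨_, h1⟩, h2, _⟩ := hv
        subst h1 h2
        rfl
      · rintro ⟨x, y⟩ _
        rfl
    · rintro ⟨x, p, y, z⟩ hv
      simp only [hS, mem_TT] at hv ⊢
      obtain ⟨⟨hx, hp, hy, hz, h⟩, h1⟩ := hv
      exact ⟨⟨hp, hx, hy, hz, by rw [← h]; ring⟩, h1⟩
    · rintro ⟨x, p, y, z⟩ _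
      rfl
  rw [card_fix (TT M) (fun v => (v.1, v.2.1, v.2.2.2, v.2.2.1))]
  · refine key _ ?_
    intro x p y z
    simp only [mem_filter, Prod.mk.injEq, true_and]
    constructor
    · rintro ⟨h1, h2, _⟩
      exact ⟨h1, h2⟩
    · rintro ⟨h1, rfl⟩
      exact ⟨h1, rfl, rfl⟩
  · rintro ⟨x, p, y, z⟩ hv
    simp only [mem_TT] at hv ⊢
    obtain ⟨hx, hp, hy, hz, h⟩ := hv
    refine ⟨hx, hp, hz, hy, by rw [← h]; ring⟩
  · rintro ⟨x, p, y, z⟩ _
    rfl

/-- The main theorem for one number. -/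
theorem main_M {N M : ℕ} (hN : N = 2 * M) (hM : M % 2 = 1)
    (hsq : ∀ x : ℕ, x * x ≠ M) (hR : ∀ x y : ℕ, x * x + y * y ≠ 2 * M)
    (hW : Even (W M).card) (hs : 8 ∣ sig M) :
    4 ∣ cnt N (fun a _ c _ => c < a) ∧
    4 ∣ cnt N (fun a _ c d => c < a ∧ (a + c + d) % 2 = 1) ∧
    (4 ∣ M.divisors.card → 4 ∣ cnt N (fun a b c d => c < a ∧ (a + b + d) % 2 = 1)) := by
  have h1 := total hN hM
  have h2 := rk2_odd hN hM
  have h3 := rk_odd hN hM
  have h4 := eqs_1111 hN hM
  have h5 := eqs_1010 hN hM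
  have h6 := V_mod hN hM
  have h7 := X_eq hN hR
  have h8 := card_div (by omega) hsq
  have h9 := G1_mod hN hM
  have h10 : G2 N % 2 = (W M).card % 2 := by
    rw [hN, ← TT_zag hM hR]; exact TT_swap
  have h11 : full N 1 1 1 1 = 2 * l N 1 1 1 1 + eqs N 1 1 1 1 := by
    rw [full_split]; ring
  have h12 := U_eq hN hM
  obtain ⟨w, hw⟩ := hW
  obtain ⟨σ, hσ⟩ := hs
  refine ⟨?_, ?_, ?_⟩
  · omega
  · omega
  · rintro ⟨k, hk⟩
    omega

end Pool.Agent.H312.Rk
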