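import Pool.Agent.H312.RkD

set_option autoImplicit false

namespace Pool.Agent.H312.Rk

open Finset

/-! The arithmetic conditions -/

theorem sig_even {M : ℕ} (hM : M % 2 = 1) (hsq : ∀ x : ℕ, x * x ≠ M) : Even (sig M) := by
  have h1 : sig M % 2 = M.divisors.card % 2 := by
    rw [sig, sum_nat_mod, card_eq_sum_ones]
    congr 1
    refine sum_congr rfl fun a ha => ?_
    rw [Nat.mem_divisors] at ha
    obtain ⟨⟨e, he⟩, _⟩ := ha
    rcases Nat.mod_two_eq_zero_or_one a with h | h
    · rw [he, Nat.mul_mod, h] at hM; simp at hM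
    · exact h
  have h2 := card_div (by omega) hsq
  rw [Nat.even_iff]
  omega

theorem sig_mul {q M : ℕ} (h : Nat.Coprime q M) : sig (q * M) = sig q * sig M := by
  have := (ArithmeticFunction.isMultiplicative_sigma (k := 1)).map_mul_of_coprime h
  simpa only [ArithmeticFunction.sigma_one_apply, sig] using this

theorem sig_eight {M : ℕ} (hM : M % 8 = 7) : 8 ∣ sig M := by
  have hsq : ∀ x : ℕ, x * x ≠ M := by
    intro x h
    have := mod4_sq x
    omega
  have h1 := sum_filter_add_sum_filter_not M.divisors (fun a => a * a < M) (fun a => a)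
  have h2 : ∑ a ∈ M.divisors.filter (fun a => ¬ a * a < M), a =
      ∑ a ∈ M.divisors.filter (fun a => a * a < M), M / a := by
    refine sum_nbij' (fun a => M / a) (fun a => M / a) ?_ ?_ ?_ ?_ ?_
    · intro a ha
      rw [mem_filter, Nat.mem_divisors] at ha
      obtain ⟨⟨⟨e, he⟩, h0⟩, h⟩ := ha
      have ha0 : 0 < a := Nat.pos_of_ne_zero (by rintro rfl; omega)
      rw [mem_filter, Nat.mem_divisors]
      rw [he, Nat.mul_div_cancel_left _ ha0, ← he]
      refine ⟨⟨⟨a, by rw [he, mul_comm]⟩, h0⟩, ?_⟩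
      have h3 := hsq a
      by_contra hc
      rw [he] at h h3 hc
      rcases lt_trichotomy a e with h4 | h4 | h4
      · nlinarith
      · subst h4; exact h3 rfl
      · have he0 : 0 < e := Nat.pos_of_ne_zero (by rintro rfl; omega)
        nlinarith
    · intro a ha
      rw [mem_filter, Nat.mem_divisors] at ha
      obtain ⟨⟨⟨e, he⟩, h0⟩, h⟩ := ha
      have ha0 : 0 < a := Nat.pos_of_ne_zero (by rintro rfl; omega)
      rw [mem_filter, Nat.mem_divisors]
      rw [he, Nat.mul_div_cancel_left _ ha0, ← he]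
      refine ⟨⟨⟨a, by rw [he, mul_comm]⟩, h0⟩, ?_⟩
      intro hc
      rw [he] at h hc
      rcases lt_trichotomy a e with h4 | h4 | h4 <;> nlinarith
    · intro a ha
      rw [mem_filter, Nat.mem_divisors] at ha
      exact Nat.div_div_self ha.1.1 ha.1.2
    · intro a ha
      rw [mem_filter, Nat.mem_divisors] at ha
      exact Nat.div_div_self ha.1.1 ha.1.2
    · intro a ha
      rw [mem_filter, Nat.mem_divisors] at ha
      exact (Nat.div_div_self ha.1.1 ha.1.2).symm
  rw [sig, ← h1, h2, ← sum_add_distrib]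
  refine dvd_sum fun a ha => ?_
  rw [mem_filter, Nat.mem_divisors] at ha
  obtain ⟨⟨⟨e, he⟩, h0⟩, h⟩ := ha
  have ha0 : 0 < a := Nat.pos_of_ne_zero (by rintro rfl; omega)
  rw [he, Nat.mul_div_cancel_left _ ha0]
  rw [he, Nat.mul_mod] at hM
  have h5 : a % 8 < 8 := Nat.mod_lt _ (by norm_num)
  have h6 : e % 8 < 8 := Nat.mod_lt _ (by norm_num)
  have h7 : (a % 8 + e % 8) % 8 = 0 := by
    generalize a % 8 = u at *
    generalize e % 8 = v at *
    interval_cases u <;> interval_cases v <;> omega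
  omega

theorem mod8_sq (x : ℕ) : x * x % 8 = 0 ∨ x * x % 8 = 1 ∨ x * x % 8 = 4 := by
  have h : x % 8 < 8 := Nat.mod_lt _ (by norm_num)
  rw [Nat.mul_mod]
  generalize x % 8 = u at *
  interval_cases u <;> decide

/-- the first class, `M = 8 n + 7` -/
theorem classA {M : ℕ} (hM : M % 8 = 7) :
    (∀ x : ℕ, x * x ≠ M) ∧ (∀ x y : ℕ, x * x + y * y ≠ 2 * M) ∧ Even (W M).card ∧ 8 ∣ sig M := by
  refine ⟨?_, ?_, ?_, sig_eight hM⟩
  · intro x h
    have := mod8_sq x
    omega
  · intro x y h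
    have := mod8_sq x
    have := mod8_sq y
    omega
  · have : W M = ∅ := by
      rw [eq_empty_iff_forall_notMem]
      rintro ⟨x, y⟩ h
      rw [mem_W] at h
      have := mod8_sq x
      have := mod8_sq y
      omega
    rw [this]; simp

theorem three_sq {x y : ℕ} (h : (x * x + y * y) % 3 = 0) : x % 3 = 0 ∧ y % 3 = 0 := by
  have h1 : x % 3 < 3 := Nat.mod_lt _ (by norm_num)
  have h2 : y % 3 < 3 := Nat.mod_lt _ (by norm_num)
  rw [Nat.add_mod, Nat.mul_mod x, Nat.mul_mod y] at h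
  generalize x % 3 = u at *
  generalize y % 3 = v at *
  interval_cases u <;> interval_cases v <;> simp at h ⊢

/-- the involution on the solutions of `x² + 2 y² = 3 m` -/
def inv3 (v : ℕ × ℕ) : ℕ × ℕ :=
  if (v.1 + v.2) % 3 = 0 then ((v.1 + 4 * v.2) / 3, ((2 * v.1 - v.2) + (v.2 - 2 * v.1)) / 3)
  else (((v.1 - 4 * v.2) + (4 * v.2 - v.1)) / 3, (2 * v.1 + v.2) / 3)

theorem inv3_prop {m : ℕ} (hm : m % 2 = 1) (h3 : m % 3 ≠ 0) (hsq : ∀ x : ℕ, x * x ≠ m)
    {x y : ℕ} (h : (x, y) ∈ W (3 * m)) :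
    inv3 (x, y) ∈ W (3 * m) ∧ inv3 (inv3 (x, y)) = (x, y) ∧ inv3 (x, y) ≠ (x, y) := by
  rw [mem_W] at h
  obtain ⟨hx, hy, h⟩ := h
  -- `x`, `y` are not divisible by three
  have hxy : (x % 3 = 1 ∨ x % 3 = 2) ∧ (y % 3 = 1 ∨ y % 3 = 2) := by
    have e1 : (x * x + 2 * (y * y)) % 3 = 0 := by omega
    by_cases hx3 : x % 3 = 0
    · exfalso
      obtain ⟨k, rfl⟩ : ∃ k, x = 3 * k := ⟨x / 3, by omega⟩
      have e2 : 3 * k * (3 * k) = 9 * (k * k) := by ring
      have e3 : (y * y) % 3 = 0 := by omega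
      have e4 : y % 3 = 0 := by
        have := three_sq (x := y) (y := 0) (by omega)
        exact this.1
      obtain ⟨j, rfl⟩ : ∃ j, y = 3 * j := ⟨y / 3, by omega⟩
      have e5 : 3 * j * (3 * j) = 9 * (j * j) := by ring
      omega
    · by_cases hy3 : y % 3 = 0
      · exfalso
        obtain ⟨j, rfl⟩ : ∃ j, y = 3 * j := ⟨y / 3, by omega⟩
        have e5 : 3 * j * (3 * j) = 9 * (j * j) := by ring
        have e3 : (x * x) % 3 = 0 := by omega
        have e4 : x % 3 = 0 := by
          have := three_sq (x := x) (y := 0) (by omega)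
          exact this.1
        omega
      · omega
  have hxo : x % 2 = 1 := by
    rcases Nat.mod_two_eq_zero_or_one x with h' | h'
    · obtain ⟨k, rfl⟩ : ∃ k, x = 2 * k := ⟨x / 2, by omega⟩
      have : 2 * k * (2 * k) = 4 * (k * k) := by ring
      omega
    · exact h'
  by_cases hc : (x + y) % 3 = 0
  · -- case A
    have e1 : inv3 (x, y) = ((x + 4 * y) / 3, ((2 * x - y) + (y - 2 * x)) / 3) := by
      simp only [inv3]; rw [if_pos hc]
    obtain ⟨X, hX⟩ : ∃ X, x + 4 * y = 3 * X := ⟨(x + 4 * y) / 3, by omega⟩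
    rcases lt_trichotomy y (2 * x) with h1 | h1 | h1
    · obtain ⟨Y, hY⟩ : ∃ Y, 2 * x = y + 3 * Y := ⟨(2 * x - y) / 3, by omega⟩
      have e2 : inv3 (x, y) = (X, Y) := by
        rw [e1, hX]; simp only [Prod.mk.injEq]; omega
      rw [e2]
      have e3 : X * X + 2 * (Y * Y) = 3 * m := by
        have hX' : (x : ℤ) = 3 * X - 4 * y := by omega
        have : (9 : ℤ) * (X * X + 2 * (Y * Y)) = 9 * (x * x + 2 * (y * y)) := by
          have h4 : (3 * X : ℤ) = x + 4 * y := by omega
          have h5 : (3 * Y : ℤ) = 2 * x - y := by omega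
          linear_combination (3 * X + x + 4 * y) * h4 + 2 * (3 * Y + 2 * x - y) * h5
        have h6 : (9 : ℕ) * (X * X + 2 * (Y * Y)) = 9 * (x * x + 2 * (y * y)) := by
          exact_mod_cast this
        omega
      refine ⟨mem_W.2 ⟨by omega, by omega, e3⟩, ?_, ?_⟩
      · simp only [inv3]
        rw [if_pos (by omega)]
        simp only [Prod.mk.injEq]; omega
      · intro h4
        simp only [Prod.mk.injEq] at h4
        omega
    · exfalso
      subst h1
      have : x * x + 2 * (2 * x * (2 * x)) = 9 * (x * x) := by ring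
      omega
    · obtain ⟨Y, hY⟩ : ∃ Y, y = 2 * x + 3 * Y := ⟨(y - 2 * x) / 3, by omega⟩
      have e2 : inv3 (x, y) = (X, Y) := by
        rw [e1, hX]; simp only [Prod.mk.injEq]; omega
      rw [e2]
      have e3 : X * X + 2 * (Y * Y) = 3 * m := by
        have : (9 : ℤ) * (X * X + 2 * (Y * Y)) = 9 * (x * x + 2 * (y * y)) := by
          have h4 : (3 * X : ℤ) = x + 4 * y := by omega
          have h5 : (3 * Y : ℤ) = y - 2 * x := by omega
          linear_combination (3 * X + x + 4 * y) * h4 + 2 * (3 * Y + y - 2 * x) * h5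
        have h6 : (9 : ℕ) * (X * X + 2 * (Y * Y)) = 9 * (x * x + 2 * (y * y)) := by
          exact_mod_cast this
        omega
      have e4 : X = Y + (x + y) := by omega
      refine ⟨mem_W.2 ⟨by omega, by omega, e3⟩, ?_, ?_⟩
      · have hYn : Y % 3 ≠ 0 := by
          intro h5
          have hX0 : X % 3 = 0 := by omega
          obtain ⟨k, rfl⟩ : ∃ k, X = 3 * k := ⟨X / 3, by omega⟩
          obtain ⟨j, rfl⟩ : ∃ j, Y = 3 * j := ⟨Y / 3, by omega⟩
          have e7 : 3 * k * (3 * k) = 9 * (k * k) := by ring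
          have e8 : 3 * j * (3 * j) = 9 * (j * j) := by ring
          omega
        simp only [inv3]
        rw [if_neg (by omega)]
        simp only [Prod.mk.injEq]; omega
      · intro h4
        simp only [Prod.mk.injEq] at h4
        omega
  · -- case B
    have e1 : inv3 (x, y) = (((x - 4 * y) + (4 * y - x)) / 3, (2 * x + y) / 3) := by
      simp only [inv3]; rw [if_neg hc]
    obtain ⟨Y, hY⟩ : ∃ Y, 2 * x + y = 3 * Y := ⟨(2 * x + y) / 3, by omega⟩
    rcases lt_trichotomy x (4 * y) with h1 | h1 | h1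
    · obtain ⟨X, hX⟩ : ∃ X, 4 * y = x + 3 * X := ⟨(4 * y - x) / 3, by omega⟩
      have e2 : inv3 (x, y) = (X, Y) := by
        rw [e1, hY]; simp only [Prod.mk.injEq]; omega
      rw [e2]
      have e3 : X * X + 2 * (Y * Y) = 3 * m := by
        have : (9 : ℤ) * (X * X + 2 * (Y * Y)) = 9 * (x * x + 2 * (y * y)) := by
          have h4 : (3 * X : ℤ) = 4 * y - x := by omega
          have h5 : (3 * Y : ℤ) = 2 * x + y := by omega
          linear_combination (3 * X + 4 * y - x) * h4 + 2 * (3 * Y + 2 * x + y) * h5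
        have h6 : (9 : ℕ) * (X * X + 2 * (Y * Y)) = 9 * (x * x + 2 * (y * y)) := by
          exact_mod_cast this
        omega
      have e4 : X + x = Y + y := by omega
      refine ⟨mem_W.2 ⟨by omega, by omega, e3⟩, ?_, ?_⟩
      · have hYn : Y % 3 ≠ 0 := by
          intro h5
          have hX0 : X % 3 = 0 := by omega
          obtain ⟨k, rfl⟩ : ∃ k, X = 3 * k := ⟨X / 3, by omega⟩
          obtain ⟨j, rfl⟩ : ∃ j, Y = 3 * j := ⟨Y / 3, by omega⟩
          have e7 : 3 * k * (3 * k) = 9 * (k * k) := by ring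
          have e8 : 3 * j * (3 * j) = 9 * (j * j) := by ring
          omega
        simp only [inv3]
        rw [if_neg (by omega)]
        simp only [Prod.mk.injEq]; omega
      · intro h4
        simp only [Prod.mk.injEq] at h4
        have h5 : x = y := by omega
        subst h5
        exact hsq x (by omega)
    · exfalso
      omega
    · obtain ⟨X, hX⟩ : ∃ X, x = 4 * y + 3 * X := ⟨(x - 4 * y) / 3, by omega⟩
      have e2 : inv3 (x, y) = (X, Y) := by
        rw [e1, hY]; simp only [Prod.mk.injEq]; omega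
      rw [e2]
      have e3 : X * X + 2 * (Y * Y) = 3 * m := by
        have : (9 : ℤ) * (X * X + 2 * (Y * Y)) = 9 * (x * x + 2 * (y * y)) := by
          have h4 : (3 * X : ℤ) = x - 4 * y := by omega
          have h5 : (3 * Y : ℤ) = 2 * x + y := by omega
          linear_combination (3 * X + x - 4 * y) * h4 + 2 * (3 * Y + 2 * x + y) * h5
        have h6 : (9 : ℕ) * (X * X + 2 * (Y * Y)) = 9 * (x * x + 2 * (y * y)) := by
          exact_mod_cast this
        omega
      refine ⟨mem_W.2 ⟨by omega, by omega, e3⟩, ?_, ?_⟩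
      · simp only [inv3]
        rw [if_pos (by omega)]
        simp only [Prod.mk.injEq]; omega
      · intro h4
        simp only [Prod.mk.injEq] at h4
        omega

/-- the second class, `M = 3 m` -/
theorem classB {m : ℕ} (hm : m % 2 = 1) (h3 : m % 3 ≠ 0) (hsq : ∀ x : ℕ, x * x ≠ m) :
    (∀ x : ℕ, x * x ≠ 3 * m) ∧ (∀ x y : ℕ, x * x + y * y ≠ 2 * (3 * m)) ∧
      Even (W (3 * m)).card ∧ 8 ∣ sig (3 * m) ∧ 4 ∣ (3 * m).divisors.card := by
  have hco : Nat.Coprime 3 m := (Nat.Prime.coprime_iff_not_dvd Nat.prime_three).2 (by omega)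
  refine ⟨?_, ?_, ?_, ?_, ?_⟩
  · intro x h
    have h1 := (three_sq (x := x) (y := 0) (by omega)).1
    obtain ⟨k, rfl⟩ : ∃ k, x = 3 * k := ⟨x / 3, by omega⟩
    have : 3 * k * (3 * k) = 9 * (k * k) := by ring
    omega
  · intro x y h
    have h1 := three_sq (x := x) (y := y) (by omega)
    obtain ⟨k, rfl⟩ : ∃ k, x = 3 * k := ⟨x / 3, by omega⟩
    obtain ⟨j, rfl⟩ : ∃ j, y = 3 * j := ⟨y / 3, by omega⟩
    have : 3 * k * (3 * k) = 9 * (k * k) := by ring
    have : 3 * j * (3 * j) = 9 * (j * j) := by ring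
    omega
  · refine even_of_inv _ inv3 ?_ ?_ ?_
    · rintro ⟨x, y⟩ h; exact (inv3_prop hm h3 hsq h).1
    · rintro ⟨x, y⟩ h; exact (inv3_prop hm h3 hsq h).2.1
    · rintro ⟨x, y⟩ h; exact (inv3_prop hm h3 hsq h).2.2
  · rw [sig_mul hco, show sig 3 = 4 by decide]
    obtain ⟨k, hk⟩ := sig_even hm hsq
    rw [hk]
    exact ⟨k, by ring⟩
  · rw [hco.card_divisors_mul, card_div (by omega) hsq, show (Nat.divisors 3).card = 2 by decide]
    exact ⟨del m, by ring⟩

theorem seven_sq {x y : ℕ} (h : (x * x + y * y) % 7 = 0) : x % 7 = 0 ∧ y % 7 = 0 := by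
  have h1 : x % 7 < 7 := Nat.mod_lt _ (by norm_num)
  have h2 : y % 7 < 7 := Nat.mod_lt _ (by norm_num)
  rw [Nat.add_mod, Nat.mul_mod x, Nat.mul_mod y] at h
  generalize x % 7 = u at *
  generalize y % 7 = v at *
  interval_cases u <;> interval_cases v <;> simp at h ⊢

theorem seven_sq2 {x y : ℕ} (h : (x * x + 2 * (y * y)) % 7 = 0) : x % 7 = 0 ∧ y % 7 = 0 := by
  have h1 : x % 7 < 7 := Nat.mod_lt _ (by norm_num)
  have h2 : y % 7 < 7 := Nat.mod_lt _ (by norm_num)
  rw [Nat.add_mod, Nat.mul_mod x, Nat.mul_mod 2, Nat.mul_mod y] at h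
  generalize x % 7 = u at *
  generalize y % 7 = v at *
  interval_cases u <;> interval_cases v <;> simp at h ⊢

/-- the third class, `M = 7 m` -/
theorem classC {m : ℕ} (hm : m % 2 = 1) (h7 : m % 7 ≠ 0) (hsq : ∀ x : ℕ, x * x ≠ m) :
    (∀ x : ℕ, x * x ≠ 7 * m) ∧ (∀ x y : ℕ, x * x + y * y ≠ 2 * (7 * m)) ∧
      Even (W (7 * m)).card ∧ 8 ∣ sig (7 * m) ∧ 4 ∣ (7 * m).divisors.card := by
  have hco : Nat.Coprime 7 m := (Nat.Prime.coprime_iff_not_dvd (by norm_num)).2 (by omega)
  refine ⟨?_, ?_, ?_, ?_, ?_⟩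
  · intro x h
    have h1 := (seven_sq (x := x) (y := 0) (by omega)).1
    obtain ⟨k, rfl⟩ : ∃ k, x = 7 * k := ⟨x / 7, by omega⟩
    have : 7 * k * (7 * k) = 49 * (k * k) := by ring
    omega
  · intro x y h
    have h1 := seven_sq (x := x) (y := y) (by omega)
    obtain ⟨k, rfl⟩ : ∃ k, x = 7 * k := ⟨x / 7, by omega⟩
    obtain ⟨j, rfl⟩ : ∃ j, y = 7 * j := ⟨y / 7, by omega⟩
    have : 7 * k * (7 * k) = 49 * (k * k) := by ring
    have : 7 * j * (7 * j) = 49 * (j * j) := by ring
    omega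
  · have : W (7 * m) = ∅ := by
      rw [eq_empty_iff_forall_notMem]
      rintro ⟨x, y⟩ h
      rw [mem_W] at h
      obtain ⟨_, _, h⟩ := h
      have h1 := seven_sq2 (x := x) (y := y) (by omega)
      obtain ⟨k, rfl⟩ : ∃ k, x = 7 * k := ⟨x / 7, by omega⟩
      obtain ⟨j, rfl⟩ : ∃ j, y = 7 * j := ⟨y / 7, by omega⟩
      have : 7 * k * (7 * k) = 49 * (k * k) := by ring
      have : 7 * j * (7 * j) = 49 * (j * j) := by ring
      omega
    rw [this]; simp
  · rw [sig_mul hco, show sig 7 = 8 by decide]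
    exact Dvd.intro _ rfl
  · rw [hco.card_divisors_mul, card_div (by omega) hsq, show (Nat.divisors 7).card = 2 by decide]
    exact ⟨del m, by ring⟩

theorem nonsq_mod3 {m : ℕ} (h : m % 3 = 2) (x : ℕ) : x * x ≠ m := by
  intro hx
  have h1 : x % 3 < 3 := Nat.mod_lt _ (by norm_num)
  rw [← hx, Nat.mul_mod] at h
  generalize x % 3 = u at *
  interval_cases u <;> simp at h

theorem nonsq_mod4 {m : ℕ} (h : m % 4 = 3) (x : ℕ) : x * x ≠ m := by
  intro hx
  have := mod4_sq x
  omega

theorem nonsq_mod7 {m : ℕ} (h : m % 7 = 5) (x : ℕ) : x * x ≠ m := by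
  intro hx
  have h1 : x % 7 < 7 := Nat.mod_lt _ (by norm_num)
  rw [← hx, Nat.mul_mod] at h
  generalize x % 7 = u at *
  interval_cases u <;> simp at h

end Pool.Agent.H312.Rk
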